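import Pool.Agent.K9h82.QS.Comm

/-! Central elements act by constants. -/

set_option linter.all false

namespace Pool.Agent.K9h82.QS

universe u

open Polynomial

section central
variable {K : Type u} [Field K] {q : K} {R : Type*} [Ring R] [Algebra K R]

/-- scalar matrices -/
noncomputable def sc (K : Type*) [Field K] (R : Type*) [Ring R] [Algebra K R] :
    R →ₐ[K] Matrix Bool Bool R :=
  { (Matrix.scalar Bool : R →+* Matrix Bool Bool R) with
    commutes' := fun r => by
      show Matrix.scalar Bool (algebraMap K R r) = _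
      rfl }

theorem sc_apply (r : R) (c d : Bool) : sc K R r c d = if c = d then r else 0 := by
  show Matrix.scalar Bool r c d = _
  simp [Matrix.scalar_apply, Matrix.diagonal_apply]

theorem sc_inj (r r' : R) (h : sc K R r = sc K R r') : r = r' := by
  have := congrFun (congrFun h true) true
  simpa [sc_apply] using this

/-- the twisted grading element over the polynomial ring -/
noncomputable def tk (q : K) (κ : Bool → R) (β : Bool) : Matrix Bool Bool R[X] :=
  twk q (fun β => C (κ β)) β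

theorem twk_map {R' : Type*} [Ring R'] [Algebra K R'] (f : R →ₐ[K] R')
    (κ : Bool → R) (β : Bool) :
    f.mapMatrix (twk q κ β) = twk q (fun β => f (κ β)) β := by
  ext c d
  simp only [AlgHom.mapMatrix_apply, Matrix.map_apply, twk]
  split_ifs <;> simp

theorem X_central (r : R[X]) : r * X = X * r := (X_mul).symm

theorem isSys_tg (hq0 : q ≠ 0) {g κ : Bool → R} (h : IsSys q g κ) :
    IsSys q (tg g κ) (tk q κ) :=
  isSys_twg hq0 (h.map (Cal K R)) (X : R[X]) X_central

theorem spec_tg {R' : Type*} [Ring R'] [Algebra K R'] (f : R →ₐ[K] R') (τ : R')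
    (hτ : ∀ r, r * τ = τ * r) (g κ : Bool → R) (β : Bool) :
    (ev f τ hτ).mapMatrix (tg g κ β) = twg τ (fun β => f (g β)) (fun β => f (κ β)) β := by
  unfold tg
  rw [twg_map, ev_X]
  congr 1 <;> funext γ <;> rw [ev_C]

theorem spec_tk {R' : Type*} [Ring R'] [Algebra K R'] (f : R →ₐ[K] R') (τ : R')
    (hτ : ∀ r, r * τ = τ * r) (κ : Bool → R) (β : Bool) :
    (ev f τ hτ).mapMatrix (tk q κ β) = twk q (fun β => f (κ β)) β := by
  unfold tk
  rw [twk_map]
  congr 1
  funext γ
  rw [ev_C]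

theorem sc_central (r : R) (h : ∀ w, w * r = r * w) : ∀ w, w * sc K R r = sc K R r * w := by
  intro w
  ext c d
  simp [Matrix.mul_apply, sc_apply, h]

/-- specialisation sends central elements to iterated scalars -/
theorem spec_center {R' B : Type*} [Ring R'] [Algebra K R'] [Ring B] [Algebra K B]
    {g κ : Bool → R} (h : IsSys q g κ)
    (hq0 : q ≠ 0) (hq : 1 + q ^ 2 ≠ 0) (hc : Cent g) (f : R →ₐ[K] R') (s : B →ₐ[K] R')
    (hf : ∀ c : R, (∀ r, r * c = c * r) → ∃ p, f c = s p) (τ : B)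
    (hτ : ∀ r, r * s τ = s τ * r) (T : Matrix Bool Bool R[X]) (hT : ∀ M, M * T = T * M) :
    ∃ p : B, (ev f (s τ) hτ).mapMatrix T = sc K R' (s p) := by
  obtain ⟨P, hP, rfl⟩ := commutant h hq0 hq hc T (fun β => hT _)
  choose p hp using fun n => hf (P.coeff n) (hP n)
  refine ⟨∑ i ∈ Finset.range (P.natDegree + 1), p i * τ ^ i, ?_⟩
  have e : ev f (s τ) hτ P = s (∑ i ∈ Finset.range (P.natDegree + 1), p i * τ ^ i) := by
    rw [ev_apply, Polynomial.eval₂_eq_sum_range, map_sum]
    refine Finset.sum_congr rfl fun i _ => ?_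
    rw [map_mul, map_pow, ← hp]
    rfl
  rw [← e]
  ext c d
  by_cases hcd : c = d <;>
    simp [Matrix.scalar_apply, Matrix.diagonal_apply, sc_apply, hcd]

/-- the singlet vector, as a matrix with equal columns -/
def iota (R : Type*) [Ring R] : Matrix Bool Bool (Matrix Bool Bool R) :=
  fun c _ => fun d _ => if c = d then 0 else if c = true then 1 else -1

theorem sing_g (hq0 : q ≠ 0) {g κ : Bool → R} (h : IsSys q g κ) (b : R)
    (hb : ∀ r, r * b = b * r) (β : Bool) :
    twg (sc K R b) (twg (q • b) g κ) (twk q κ) β * iota R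
      = iota R * sc K _ (sc K R (g β)) := by
  ext c e d f
  have n1 : (true = false) = False := by simp
  have n2 : (false = true) = False := by simp
  cases β <;> cases c <;> cases d <;> cases e <;> cases f <;>
    simp [Matrix.mul_apply, twg, twk, iota, sc_apply, n1, n2, Fintype.sum_bool]

theorem sing_k (hq0 : q ≠ 0) {g κ : Bool → R} (h : IsSys q g κ) (β : Bool) :
    twk q (twk q κ) β * iota R = iota R * sc K _ (sc K R (κ β)) := by
  ext c e d f
  have n1 : (true = false) = False := by simp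
  have n2 : (false = true) = False := by simp
  cases β <;> cases c <;> cases d <;> cases e <;> cases f <;>
    simp [Matrix.mul_apply, twg, twk, iota, sc_apply, n1, n2, Fintype.sum_bool, hq0, smul_smul]

theorem tw_functor (s ι : R) (hs : ∀ r, r * s = s * r) (G G' L L' : Bool → R)
    (hG : ∀ β, G β * ι = ι * G' β) (hL : ∀ β, L β * ι = ι * L' β) (β : Bool) :
    twg s G L β * sc K R ι = sc K R ι * twg s G' L' β := by
  have hsι : ∀ γ, s * L γ * ι = ι * (s * L' γ) := fun γ => by
    rw [mul_assoc, hL, ← mul_assoc, ← hs, mul_assoc]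
  ext c d
  cases β <;> cases c <;> cases d <;>
    simp [Matrix.mul_apply, twg, sc_apply, hG, hsι]

theorem comp_apply' {A B C' : Type*} [Ring A] [Ring B] [Ring C'] [Algebra K A] [Algebra K B]
    [Algebra K C'] (f : A →ₐ[K] B) (f' : B →ₐ[K] C') (a : A) : (f'.comp f) a = f' (f a) := rfl

theorem rho_central {g : Bool → R} (h : ∀ β, serre q (g β) (g (!β)) = 0) (hc : Cent g)
    (z : UPos K q) (hz : ∀ u, u * z = z * u) : ∀ r, r * rho g h z = rho g h z * r := by
  apply hc
  intro β
  rw [← rho_gen g h β, ← map_mul, hz, map_mul]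

theorem iota_cancel (y y' : R)
    (h : sc K _ (sc K R y) * iota R = iota R * sc K _ (sc K R y')) : y = y' := by
  have h1 := congrFun (congrFun (congrFun (congrFun h true) true) false) true
  simpa [Matrix.mul_apply, sc_apply, iota, Fintype.sum_bool] using h1

theorem ev_dil_coeff (a : K) (m0 : ∀ (r : R[X]), r * (a • X) = (a • X) * r) (P : R[X]) (n : ℕ) :
    (ev (Cal K R) (a • X) m0 P).coeff n = a ^ n • P.coeff n := by
  rw [ev_apply, Polynomial.eval₂_eq_sum_range, Polynomial.finset_sum_coeff]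
  have : ∀ i, ((Cal K R : R →+* R[X]) (P.coeff i) * (a • X) ^ i).coeff n =
      if n = i then a ^ n • P.coeff n else 0 := by
    intro i
    show (C (P.coeff i) * (a • X) ^ i).coeff n = _
    rw [_root_.smul_pow, mul_smul_comm, coeff_smul, coeff_C_mul_X_pow]
    split_ifs with h
    · rw [h]
    · rw [smul_zero]
  rw [Finset.sum_congr rfl (fun i _ => this i), Finset.sum_ite_eq]
  split_ifs with h
  · rfl
  · have : P.natDegree < n := by
      rw [Finset.mem_range] at h
      omega
    rw [coeff_eq_zero_of_natDegree_lt this, smul_zero]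

theorem ev_zero (P : R[X]) : ev (AlgHom.id K R) 0 (fun r => by simp) P = P.coeff 0 := by
  rw [ev_apply, Polynomial.eval₂_eq_sum_range, Finset.sum_range_succ']
  simp

theorem mapMatrix_sc {R' : Type*} [Ring R'] [Algebra K R'] (f : R →ₐ[K] R') (P : R) :
    f.mapMatrix (sc K R P) = sc K R' (f P) := by
  ext c d
  by_cases hcd : c = d <;> simp [sc_apply, hcd]

/-- central elements of `UPos` act on the twisted system as on the original one -/
theorem good_step {g κ : Bool → R} (h : IsSys q g κ) (hq0 : q ≠ 0)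
    (hq : ∀ n : ℕ, 0 < n → q ^ n ≠ 1) (hc : Cent g)
    (z : UPos K q) (hz : ∀ u, u * z = z * u) :
    rho (tg g κ) (isSys_tg hq0 h).serre z = sc K _ (C (rho g h.serre z)) := by
  have hq2 : 1 + q ^ 2 ≠ 0 := by
    intro e
    apply hq 4 (by norm_num)
    have : q ^ 2 = -1 := by linear_combination e
    calc q ^ 4 = (q ^ 2) ^ 2 := by ring
      _ = 1 := by rw [this]; ring
  -- levels of generic systems
  have h1 := isSys_tg hq0 h
  have c1 : Cent (tg g κ) := cent_tg h hq0 hq2 hc
  have h2 := isSys_tg hq0 h1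
  have c2 : Cent (tg (tg g κ) (tk q κ)) := cent_tg h1 hq0 hq2 c1
  have h3 := isSys_tg hq0 h2
  have c3 : Cent (tg (tg (tg g κ) (tk q κ)) (tk q (tk q κ))) := cent_tg h2 hq0 hq2 c2
  -- centrality of parameters
  have m0 : ∀ (a : K) (r : R[X]), r * (a • X) = (a • X) * r := fun a r => by
    rw [mul_smul_comm, smul_mul_assoc, X_central]
  have m1 : ∀ (a : K), ∀ r, r * sc K R[X] (a • X) = sc K R[X] (a • X) * r :=
    fun a => sc_central _ (m0 a)
  have m2 : ∀ (a : K), ∀ r, r * sc K _ (sc K R[X] (a • X)) = sc K _ (sc K R[X] (a • X)) * r :=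
    fun a => sc_central _ (m1 a)
  -- the specialisations
  let B := R[X]
  let s0 : B →ₐ[K] R[X] := AlgHom.id K _
  let s1 : B →ₐ[K] Matrix Bool Bool R[X] := (sc K _).comp s0
  let s2 : B →ₐ[K] Matrix Bool Bool (Matrix Bool Bool R[X]) := (sc K _).comp s1
  have t0 : ∀ r, r * s0 (q ^ 2 • X) = s0 (q ^ 2 • X) * r := m0 _
  have t1 : ∀ r, r * s1 (q • X) = s1 (q • X) * r := m1 _
  have t2 : ∀ r, r * s2 ((1 : K) • X) = s2 ((1 : K) • X) * r := m2 _
  let F1 : Matrix Bool Bool R[X] →ₐ[K] Matrix Bool Bool R[X] :=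
    (ev (Cal K R) (s0 (q ^ 2 • X)) t0).mapMatrix
  let F2 : Matrix Bool Bool (Matrix Bool Bool R[X])[X] →ₐ[K] _ :=
    (ev F1 (s1 (q • X)) t1).mapMatrix
  let F3 : Matrix Bool Bool (Matrix Bool Bool (Matrix Bool Bool R[X])[X])[X] →ₐ[K] _ :=
    (ev F2 (s2 ((1 : K) • X)) t2).mapMatrix
  have p0 : ∀ c : R, (∀ r, r * c = c * r) → ∃ p : B, Cal K R c = s0 p := fun c _ => ⟨Cal K R c, rfl⟩
  have p1 : ∀ c, (∀ r, r * c = c * r) → ∃ p : B, F1 c = s1 p := fun c hcc =>
    spec_center h hq0 hq2 hc (Cal K R) s0 p0 (q ^ 2 • X) t0 c hcc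
  have p2 : ∀ c, (∀ r, r * c = c * r) → ∃ p : B, F2 c = s2 p := fun c hcc =>
    spec_center h1 hq0 hq2 c1 F1 s1 p1 (q • X) t1 c hcc
  have p3 : ∀ c, (∀ r, r * c = c * r) → ∃ p : B, F3 c = sc K _ (s2 p) := fun c hcc =>
    spec_center h2 hq0 hq2 c2 F2 s2 p2 ((1 : K) • X) t2 c hcc
  -- the images of the generators
  let a1 : Bool → _ := fun β => F1 (tg g κ β)
  let b1 : Bool → _ := fun β => F1 (tk q κ β)
  let a2 : Bool → _ := fun β => F2 (tg (tg g κ) (tk q κ) β)
  let b2 : Bool → _ := fun β => F2 (tk q (tk q κ) β)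
  have ea1 : ∀ β, a1 β = twg (q ^ 2 • X) (fun β => C (g β)) (fun β => C (κ β)) β := fun β =>
    spec_tg (Cal K R) _ t0 g κ β
  have eb1 : ∀ β, b1 β = twk q (fun β => C (κ β)) β := fun β => spec_tk (Cal K R) _ t0 κ β
  have ea2 : ∀ β, a2 β = twg (s1 (q • X)) a1 b1 β := fun β =>
    spec_tg F1 _ t1 (tg g κ) (tk q κ) β
  have eb2 : ∀ β, b2 β = twk q b1 β := fun β => spec_tk F1 _ t1 (tk q κ) β
  have ea3 : ∀ β, F3 (tg (tg (tg g κ) (tk q κ)) (tk q (tk q κ)) β)
      = twg (s2 ((1 : K) • X)) a2 b2 β := fun β =>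
    spec_tg F2 _ t2 (tg (tg g κ) (tk q κ)) (tk q (tk q κ)) β
  have ea1' : a1 = twg (q ^ 2 • X) (fun β => C (g β)) (fun β => C (κ β)) := funext ea1
  have eb1' : b1 = twk q (fun β => C (κ β)) := funext eb1
  have ea2' : a2 = twg (s1 (q • X)) a1 b1 := funext ea2
  have eb2' : b2 = twk q b1 := funext eb2
  have hγ : IsSys q (fun β => (C (g β) : R[X])) (fun β => C (κ β)) := h.map (Cal K R)
  have hab1 : IsSys q a1 b1 := h1.map F1
  -- the images of `z`
  have cen1 : ∀ r, r * rho (tg g κ) h1.serre z = rho (tg g κ) h1.serre z * r :=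
    rho_central h1.serre c1 z hz
  obtain ⟨P, hP, hzP⟩ := commutant h hq0 hq2 hc (rho (tg g κ) h1.serre z) (fun β => cen1 _)
  have hzP' : rho (tg g κ) h1.serre z = sc K _ P := hzP
  obtain ⟨p, hp⟩ := p3 _ (rho_central h3.serre c3 z hz)
  let φ3 : UPos K q →ₐ[K] _ := F3.comp (rho _ h3.serre)
  have hφ3 : φ3 z = sc K _ (s2 p) := hp
  have hφ3g : ∀ β, φ3 (gen q β) = twg (s2 ((1 : K) • X)) a2 b2 β := by
    intro β
    show F3 (rho _ h3.serre (gen q β)) = _
    rw [rho_gen]
    exact ea3 β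
  -- first intertwiner
  have I1 : ∀ β, φ3 (gen q β) * iota _ = iota _ * (((sc K _).comp (sc K _)).comp
      (F1.comp (rho (tg g κ) h1.serre))) (gen q β) := by
    intro β
    rw [hφ3g]
    have e := sing_g hq0 hab1 (s1 ((1 : K) • X)) (m1 1) β
    have e' : q • s1 ((1 : K) • X) = s1 (q • X) := by
      rw [← map_smul, one_smul]
    rw [e', ← ea2', ← eb2'] at e
    have e2 : (((sc K _).comp (sc K _)).comp
      (F1.comp (rho (tg g κ) h1.serre))) (gen q β) = sc K _ (sc K _ (a1 β)) := by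
      show sc K _ (sc K _ (F1 (rho (tg g κ) h1.serre (gen q β)))) = _
      rw [rho_gen]
    rw [e2]
    exact e
  have J1 := intertwine _ _ _ I1 z
  have J1' : sc K _ (sc K _ (sc K _ p)) * iota _ = iota _ * sc K _ (sc K _ (F1 (sc K _ P))) := by
    rw [hφ3] at J1
    have e2 : (((sc K _).comp (sc K _)).comp
      (F1.comp (rho (tg g κ) h1.serre))) z = sc K _ (sc K _ (F1 (sc K _ P))) := by
      show sc K _ (sc K _ (F1 (rho (tg g κ) h1.serre z))) = _
      rw [hzP']
    rw [e2] at J1
    exact J1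
  have r1 := iota_cancel _ _ J1'
  have r1' : p = ev (Cal K R) (s0 (q ^ 2 • X)) t0 P := by
    have e : F1 (sc K _ P) = sc K _ (ev (Cal K R) (s0 (q ^ 2 • X)) t0 P) := mapMatrix_sc _ _
    rw [e] at r1
    exact sc_inj _ _ r1
  -- second intertwiner
  have I2 : ∀ β, φ3 (gen q β) * sc K _ (iota _) = sc K _ (iota _) *
      ((((sc K _).comp (sc K R[X])).mapMatrix).comp (rho (tg g κ) h1.serre)) (gen q β) := by
    intro β
    rw [hφ3g]
    have e := sing_g hq0 hγ (q • X) (m0 q)
    have e' : q • (q • (X : R[X])) = q ^ 2 • X := by rw [smul_smul, sq]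
    rw [e', ← ea1', ← eb1'] at e
    have e2 := sing_k hq0 hγ
    rw [← eb1', ← eb2'] at e2
    have e3 : twg (sc K R[X] (q • X)) a1 b1 = a2 := ea2'.symm
    rw [e3] at e
    have e4 := tw_functor (K := K) (s2 ((1 : K) • X)) (iota R[X]) t2 a2 _ b2 _ e e2 β
    rw [e4]
    congr 1
    show _ = ((sc K _).comp (sc K R[X])).mapMatrix (rho (tg g κ) h1.serre (gen q β))
    rw [rho_gen]
    unfold tg
    rw [twg_map]
    congr 1
    rw [one_smul]
    rfl
  have J2 := intertwine _ _ _ I2 z
  have J2' : sc K _ (s2 p) * sc K _ (iota _) = sc K _ (iota _) * sc K _ (sc K _ (sc K _ P)) := by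
    rw [hφ3] at J2
    have e2 : ((((sc K _).comp (sc K R[X])).mapMatrix).comp (rho (tg g κ) h1.serre)) z
        = sc K _ (sc K _ (sc K _ P)) := by
      show ((sc K _).comp (sc K R[X])).mapMatrix (rho (tg g κ) h1.serre z) = _
      rw [hzP', mapMatrix_sc]
      rfl
    rw [e2] at J2
    exact J2
  rw [← map_mul, ← map_mul] at J2'
  have r2 : p = P := iota_cancel _ _ (sc_inj _ _ J2')
  -- hence `P` is constant
  have hcoef : ∀ n, 0 < n → P.coeff n = 0 := by
    intro n hn
    rw [r2] at r1'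
    have e := congrArg (fun p : R[X] => p.coeff n) r1'
    have e' : P.coeff n = (q ^ 2) ^ n • P.coeff n := by
      rw [← ev_dil_coeff (q ^ 2) (m0 _) P n]
      exact e
    have e'' : (1 - (q ^ 2) ^ n) • P.coeff n = 0 := by
      rw [sub_smul, one_smul, ← e', sub_self]
    rcases smul_eq_zero.mp e'' with e3 | e3
    · exfalso
      apply hq (2 * n) (by omega)
      rw [pow_mul]
      exact (sub_eq_zero.mp e3).symm
    · exact e3
  have hPC : P = C (P.coeff 0) := by
    ext n
    rw [coeff_C]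
    split_ifs with hn
    · rw [hn]
    · exact hcoef n (Nat.pos_of_ne_zero hn)
  -- evaluation at zero
  have r3 : P.coeff 0 = rho g h.serre z := by
    have e := rho_comp ((ev (AlgHom.id K R) 0 (fun r => by simp)).mapMatrix) (tg g κ)
      (fun β => sc K R (g β)) h1.serre (h.map (κ := κ) (sc K R)).serre (by
        intro β
        rw [spec_tg]
        ext c d
        simp [twg, sc_apply]) z
    have e' := rho_comp (sc K R) g (fun β => sc K R (g β)) h.serre
      (h.map (κ := κ) (sc K R)).serre (fun β => rfl) z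
    rw [← e', hzP', mapMatrix_sc, ev_zero] at e
    exact sc_inj _ _ e
  rw [hzP', hPC, r3]

end central

end Pool.Agent.K9h82.QS
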