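import Pool.Agent.K9h82.QS.Sep

/-! Combinatorics of chains. -/

set_option linter.all false

namespace Pool.Agent.K9h82.QS

/-- total size -/
def tot : List (Bool × ℕ) → ℕ
  | [] => 0
  | (_, ℓ) :: As => ℓ + tot As

/-- the maximal sum of squares -/
def FF : List (Bool × ℕ) → ℕ
  | [] => 0
  | (_, ℓ) :: As => ℓ + 2 * tot As + FF As

/-- lower all entries by one -/
def prd (r : List ℕ) : List ℕ := r.map (fun x => x - 1)

theorem lower_facts (r : List ℕ) : ∀ (a : Bool) (ℓ : ℕ) (β : Bool) (r' : List ℕ),
    r' ∈ lower a ℓ β r → r.sum = r'.sum + ℓ ∧ sq r ≤ sq r' + ℓ + 2 * r'.sum ∧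
      (sq r = sq r' + ℓ + 2 * r'.sum → r' = prd r) := by
  induction r with
  | nil =>
    intro a ℓ β r' h
    simp only [lower] at h
    split_ifs at h with h0
    · have : r' = [] := by simpa using h
      subst this
      simp [h0, sq, prd]
    · simp at h
  | cons n r ih =>
    intro a ℓ β r' h
    simp only [lower, List.mem_append, List.mem_map] at h
    rcases h with ⟨s, hs, rfl⟩ | h
    · obtain ⟨h1, h2, h3⟩ := ih a ℓ (!β) s hs
      refine ⟨by simp only [List.sum_cons]; omega, by simp only [sq, List.sum_cons]; omega, ?_⟩
      intro h
      simp only [sq, List.sum_cons] at h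
      have hn : n = 0 := by omega
      subst hn
      rw [h3 (by omega)]
      simp [prd]
    · split_ifs at h with hc
      · simp only [List.mem_map] at h
        obtain ⟨s, hs, rfl⟩ := h
        obtain ⟨h1, h2, h3⟩ := ih (!a) (ℓ - 1) (!β) s hs
        obtain ⟨m, rfl⟩ : ∃ m, n = m + 1 := ⟨n - 1, by omega⟩
        have hl : 0 < ℓ := hc.2.1
        have e : (m + 1) ^ 2 = m ^ 2 + 2 * m + 1 := by ring
        refine ⟨by simp only [List.sum_cons]; omega, ?_, ?_⟩
        · simp only [sq, List.sum_cons, Nat.add_sub_cancel, e]; omega
        · intro h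
          simp only [sq, List.sum_cons, Nat.add_sub_cancel, e] at h
          rw [h3 (by omega)]
          simp [prd]
      · simp at h

theorem exists_of_cnt {a : Bool} {ℓ : ℕ} {As : List (Bool × ℕ)} {β : Bool} {r : List ℕ}
    (h : cnt ((a, ℓ) :: As) β r ≠ 0) : ∃ r' ∈ lower a ℓ β r, cnt As β r' ≠ 0 := by
  by_contra hcon
  push Not at hcon
  apply h
  simp only [cnt]
  apply List.sum_eq_zero
  intro x hx
  rw [List.mem_map] at hx
  obtain ⟨r', hr', rfl⟩ := hx
  exact hcon r' hr'

theorem cnt_facts (As : List (Bool × ℕ)) : ∀ (β : Bool) (r : List ℕ), cnt As β r ≠ 0 →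
    r.sum = tot As ∧ sq r ≤ FF As := by
  induction As with
  | nil =>
    intro β r h
    simp only [cnt] at h
    split_ifs at h with h0
    · have h1 : r.sum = 0 := List.sum_eq_zero h0
      refine ⟨h1, ?_⟩
      have := sq_le r
      rw [h1] at this
      simpa [FF] using this
    · exact absurd rfl h
  | cons A As ih =>
    obtain ⟨a, ℓ⟩ := A
    intro β r h
    obtain ⟨r', hr', hc⟩ := exists_of_cnt h
    obtain ⟨h1, h2, h3⟩ := lower_facts r a ℓ β r' hr'
    obtain ⟨h4, h5⟩ := ih β r' hc
    refine ⟨?_, ?_⟩
    · simp only [tot]; omega
    · simp only [FF]; omega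

/-- the equality case -/
theorem cnt_eq {a : Bool} {ℓ : ℕ} {As : List (Bool × ℕ)} {β : Bool} {r : List ℕ}
    (h : cnt ((a, ℓ) :: As) β r ≠ 0) (hF : sq r = FF ((a, ℓ) :: As)) :
    prd r ∈ lower a ℓ β r ∧ cnt As β (prd r) ≠ 0 ∧ sq (prd r) = FF As := by
  obtain ⟨r', hr', hc⟩ := exists_of_cnt h
  obtain ⟨h1, h2, h3⟩ := lower_facts r a ℓ β r' hr'
  obtain ⟨h4, h5⟩ := cnt_facts As β r' hc
  simp only [FF] at hF
  have e := h3 (by omega)
  subst e
  exact ⟨hr', hc, by omega⟩

theorem Pos.tail {n : ℕ} {r : List ℕ} (h : Pos (n :: r)) : Pos r := fun x hx => h x (by simp [hx])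

theorem sum_prd (r : List ℕ) (h : Pos r) : r.sum = (prd r).sum + r.length := by
  induction r with
  | nil => simp [prd]
  | cons n r ih =>
    have h1 := h n (by simp)
    have h2 := ih h.tail
    simp only [prd, List.map_cons, List.sum_cons, List.length_cons] at *
    omega

theorem sq_prd (r : List ℕ) (h : Pos r) : sq r = sq (prd r) + r.length + 2 * (prd r).sum := by
  induction r with
  | nil => simp [prd, sq]
  | cons n r ih =>
    have h1 := h n (by simp)
    have h2 := ih h.tail
    obtain ⟨m, rfl⟩ : ∃ m, n = m + 1 := ⟨n - 1, by omega⟩
    have e : (m + 1) ^ 2 = m ^ 2 + 2 * m + 1 := by ring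
    simp only [prd, List.map_cons, List.sum_cons, List.length_cons, sq, Nat.add_sub_cancel, e] at *
    omega

theorem prd_inj (r s : List ℕ) (hr : Pos r) (hs : Pos s) (h : prd r = prd s) : r = s := by
  induction r generalizing s with
  | nil =>
    cases s with
    | nil => rfl
    | cons m s => simp [prd] at h
  | cons n r ih =>
    cases s with
    | nil => simp [prd] at h
    | cons m s =>
      simp only [prd, List.map_cons, List.cons.injEq] at h
      have h1 := hr n (by simp)
      have h2 := hs m (by simp)
      rw [ih s hr.tail hs.tail h.2]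
      congr 1
      omega

theorem prd_mem_lower {a : Bool} {ℓ : ℕ} {β : Bool} {r : List ℕ} (hr : Pos r)
    (h : prd r ∈ lower a ℓ β r) : ℓ = r.length ∧ (r ≠ [] → a = β) := by
  obtain ⟨h1, -, -⟩ := lower_facts r a ℓ β _ h
  have h2 := sum_prd r hr
  refine ⟨by omega, ?_⟩
  intro hne
  match r, hr, h, hne with
  | n :: r, hr, h, _ =>
    have hn := hr n (by simp)
    simp only [lower, List.mem_append, List.mem_map] at h
    rcases h with ⟨s, hs, e⟩ | h
    · simp only [prd, List.map_cons, List.cons.injEq] at e
      omega
    · split_ifs at h with hc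
      · exact hc.1.symm
      · simp at h

theorem lower_nil (r : List ℕ) : ∀ (a : Bool) (ℓ : ℕ) (β : Bool), r.length < ℓ →
    lower a ℓ β r = [] := by
  induction r with
  | nil =>
    intro a ℓ β h
    simp only [lower]
    rw [if_neg]
    simp only [List.length_nil] at h
    omega
  | cons n r ih =>
    intro a ℓ β h
    simp only [List.length_cons] at h
    simp only [lower]
    rw [ih a ℓ (!β) (by omega), ih (!a) (ℓ - 1) (!β) (by omega)]
    simp

theorem lower_full (r : List ℕ) (hr : Pos r) : ∀ β, lower β r.length β r = [prd r] := by
  induction r with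
  | nil => intro β; simp [lower, prd]
  | cons n r ih =>
    intro β
    have hn := hr n (by simp)
    simp only [lower, List.length_cons, Nat.add_sub_cancel]
    rw [lower_nil r β (r.length + 1) (!β) (by omega), ih hr.tail (!β)]
    simp [hn, prd]

theorem cnt_zero_cons (As : List (Bool × ℕ)) : ∀ (β : Bool) (r : List ℕ),
    cnt As β (0 :: r) = cnt As (!β) r := by
  induction As with
  | nil => intro β r; simp [cnt]
  | cons A As ih =>
    obtain ⟨a, ℓ⟩ := A
    intro β r
    simp only [cnt, lower]
    rw [if_neg (by simp)]
    simp only [List.append_nil, List.map_map]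
    congr 1
    apply List.map_congr_left
    intro s _
    simp [ih]

theorem lower_append_zero (r : List ℕ) : ∀ (a : Bool) (ℓ : ℕ) (β : Bool),
    lower a ℓ β (r ++ [0]) = (lower a ℓ β r).map (fun s => s ++ [0]) := by
  induction r with
  | nil =>
    intro a ℓ β
    by_cases h : ℓ = 0 <;> simp [lower, h]
  | cons n r ih =>
    intro a ℓ β
    simp only [List.cons_append, lower, ih]
    rw [List.map_append]
    congr 1
    · simp
    · split_ifs <;> simp

theorem cnt_append_zero (As : List (Bool × ℕ)) : ∀ (β : Bool) (r : List ℕ),
    cnt As β (r ++ [0]) = cnt As β r := by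
  induction As with
  | nil =>
    intro β r
    simp [cnt, or_imp, forall_and]
  | cons A As ih =>
    obtain ⟨a, ℓ⟩ := A
    intro β r
    simp only [cnt, lower_append_zero, List.map_map]
    congr 1
    apply List.map_congr_left
    intro s _
    simp [ih]

theorem cnt_append_zeros (As : List (Bool × ℕ)) (β : Bool) (r : List ℕ) (b : ℕ) :
    cnt As β (r ++ List.replicate b 0) = cnt As β r := by
  induction b with
  | zero => simp
  | succ b ih => rw [List.replicate_succ', ← List.append_assoc, cnt_append_zero, ih]

/-- weakly decreasing -/
def WD : List ℕ → Prop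
  | a :: b :: t => b ≤ a ∧ WD (b :: t)
  | _ => True

theorem WD.tail {n : ℕ} {r : List ℕ} (h : WD (n :: r)) : WD r := by
  cases r with
  | nil => trivial
  | cons m r => exact h.2

theorem WD.le {n : ℕ} {r : List ℕ} (h : WD (n :: r)) : ∀ x ∈ r, x ≤ n := by
  induction r generalizing n with
  | nil => simp
  | cons m r ih =>
    intro x hx
    rcases List.mem_cons.mp hx with rfl | hx
    · exact h.1
    · exact (ih h.2 x hx).trans h.1

theorem WD.nv (r : List ℕ) (h : WD r) : NV r := by
  induction r with
  | nil => trivial
  | cons n r ih =>
    match r, ih, h with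
    | [], _, _ => trivial
    | [m], _, _ => trivial
    | m :: k :: t, ih, h =>
      refine ⟨?_, ih h.2⟩
      have := h.2.1
      omega

theorem wd_of_nv (r : List ℕ) : ∀ n m, NV (n :: m :: r) → m ≤ n → WD (n :: m :: r) := by
  induction r with
  | nil => intro n m _ h; exact ⟨h, trivial⟩
  | cons k r ih =>
    intro n m h hmn
    refine ⟨hmn, ih m k h.2 ?_⟩
    have := h.1
    omega

theorem NV.tail {n : ℕ} {r : List ℕ} (h : NV (n :: r)) : NV r := by
  match r, h with
  | [], _ => trivial
  | [m], _ => trivial
  | m :: k :: t, h => exact h.2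

theorem wd_prd (r : List ℕ) (hr : Pos r) (h : WD r) :
    ∃ b r1, Pos r1 ∧ WD r1 ∧ prd r = r1 ++ List.replicate b 0 := by
  induction r with
  | nil => exact ⟨0, [], by simp [Pos], trivial, by simp [prd]⟩
  | cons n r ih =>
    have hn := hr n (by simp)
    by_cases hn1 : n = 1
    · subst hn1
      refine ⟨r.length + 1, [], by simp [Pos], trivial, ?_⟩
      rw [List.nil_append, List.eq_replicate_iff]
      refine ⟨by simp [prd], ?_⟩
      intro b hb
      simp only [prd, List.mem_map] at hb
      obtain ⟨x, hx, rfl⟩ := hb
      rcases List.mem_cons.mp hx with rfl | hx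
      · rfl
      · have := WD.le h x hx
        omega
    · obtain ⟨b, r1, hp, hw, e⟩ := ih hr.tail h.tail
      refine ⟨b, (n - 1) :: r1, ?_, ?_, ?_⟩
      · intro x hx
        rcases List.mem_cons.mp hx with rfl | hx
        · omega
        · exact hp x hx
      · match r1, hp, hw, e with
        | [], _, _, _ => trivial
        | m :: r1, hp, hw, e =>
          refine ⟨?_, hw⟩
          match r, h, e with
          | [], h, e => simp [prd] at e
          | k :: r, h, e =>
            simp only [prd, List.map_cons, List.cons_append, List.cons.injEq] at e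
            have := h.1
            omega
      · simp only [prd, List.map_cons, List.cons_append] at e ⊢
        rw [e]

/-- one layer of a valley-free word -/
theorem nv_prd (r : List ℕ) (hne : r ≠ []) (hr : Pos r) (h : NV r) :
    ∃ a b r1, a ≤ 1 ∧ (r1 = [] → a = 0) ∧ Pos r1 ∧ NV r1 ∧
      prd r = List.replicate a 0 ++ r1 ++ List.replicate b 0 := by
  induction r with
  | nil => exact absurd rfl hne
  | cons n r ih =>
    have hn := hr n (by simp)
    match r, ih, hr, h with
    | [], _, hr, h =>
      obtain ⟨b, r1, h1, h2, h3⟩ := wd_prd [n] hr trivial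
      exact ⟨0, b, r1, by omega, fun _ => rfl, h1, WD.nv _ h2, by simpa using h3⟩
    | m :: r, ih, hr, h =>
      rcases Nat.lt_or_ge n m with hnm | hnm
      · obtain ⟨a, b, r1, ha, ha', hp, hv, e⟩ := ih (by simp) hr.tail h.tail
        have ha0 : a = 0 := by
          by_contra hne0
          have : a = 1 := by omega
          subst this
          simp only [prd, List.map_cons, List.replicate_one, List.cons_append, List.nil_append,
            List.cons.injEq] at e
          omega
        subst ha0
        simp only [List.replicate_zero, List.nil_append] at e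
        match r1, ha', hp, hv, e with
        | [], _, _, _, e =>
          exfalso
          cases b with
          | zero => simp [prd] at e
          | succ b =>
            simp only [prd, List.map_cons, List.nil_append, List.replicate_succ,
              List.cons.injEq] at e
            omega
        | k :: t1, _, hp, hv, e =>
          have hk : k = m - 1 := by
            simp only [prd, List.map_cons, List.cons_append, List.cons.injEq] at e
            omega
          by_cases hn1 : n = 1
          · refine ⟨1, b, k :: t1, le_refl _, by simp, hp, hv, ?_⟩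
            have : prd (n :: m :: r) = 0 :: prd (m :: r) := by simp [prd, hn1]
            rw [this, e]
            simp
          · refine ⟨0, b, (n - 1) :: k :: t1, by omega, by simp, ?_, ?_, ?_⟩
            · intro x hx
              rcases List.mem_cons.mp hx with rfl | hx
              · omega
              · exact hp x hx
            · match t1, hv with
              | [], _ => trivial
              | j :: t, hv =>
                refine ⟨?_, hv⟩
                omega
            · have : prd (n :: m :: r) = (n - 1) :: prd (m :: r) := by simp [prd]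
              rw [this, e]
              simp
      · obtain ⟨b, r1, h1, h2, h3⟩ := wd_prd (n :: m :: r) hr (wd_of_nv r n m h hnm)
        exact ⟨0, b, r1, by omega, fun _ => rfl, h1, WD.nv _ h2, by simpa using h3⟩

theorem sq_replicate_zero (b : ℕ) : sq (List.replicate b 0) = 0 := by
  induction b with
  | zero => rfl
  | succ b ih => simp [List.replicate_succ, sq, ih]

/-- canonical chains -/
theorem exists_canon (N : ℕ) : ∀ (r : List ℕ) (β : Bool), r.sum < N → Pos r → NV r →
    ∃ As, cnt As β r = 1 ∧ FF As = sq r ∧
      ∀ (β' : Bool) (r' : List ℕ), Pos r' → NV r' → cnt As β' r' ≠ 0 → sq r' = FF As →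
        r' = r ∧ (r ≠ [] → β' = β) := by
  induction N with
  | zero => intro r β h; omega
  | succ N ih =>
    intro r β hN hr hv
    by_cases hne : r = []
    · subst hne
      refine ⟨[], by simp [cnt], rfl, ?_⟩
      intro β' r' hp _ hc _
      refine ⟨?_, by simp⟩
      simp only [cnt] at hc
      split_ifs at hc with h0
      · match r', hp, h0 with
        | [], _, _ => rfl
        | n :: t, hp, h0 =>
          have h1 := hp n (by simp)
          have h2 := h0 n (by simp)
          omega
      · exact absurd rfl hc
    · obtain ⟨a, b, r1, ha, ha', hp1, hv1, e⟩ := nv_prd r hne hr hv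
      have hlen : 0 < r.length := List.length_pos_iff.mpr hne
      have hsum := sum_prd r hr
      have hsum1 : (prd r).sum = r1.sum := by
        rw [e]; simp [List.sum_append]
      obtain ⟨As, hc1, hF1, hu1⟩ := ih r1 (if a = 0 then β else !β) (by omega) hp1 hv1
      have hstrip : ∀ (As : List (Bool × ℕ)) (β : Bool) (a : ℕ) (r1 : List ℕ) (b : ℕ), a ≤ 1 →
          cnt As β (List.replicate a 0 ++ r1 ++ List.replicate b 0)
            = cnt As (if a = 0 then β else !β) r1 := by
        intro As β a r1 b ha
        rw [cnt_append_zeros]
        rcases Nat.eq_zero_or_pos a with h0 | h0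
        · subst h0; simp
        · have : a = 1 := by omega
          subst this
          simp [cnt_zero_cons]
      have hc : cnt As β (prd r) = 1 := by rw [e, hstrip As β a r1 b ha, hc1]
      obtain ⟨htot, -⟩ := cnt_facts As β (prd r) (by omega)
      have hsqr1 : ∀ (a : ℕ) (r1 : List ℕ) (b : ℕ),
          sq (List.replicate a 0 ++ r1 ++ List.replicate b 0) = sq r1 := by
        intro a r1 b
        rw [sq_append, sq_append, sq_replicate_zero, sq_replicate_zero]
        omega
      refine ⟨(β, r.length) :: As, ?_, ?_, ?_⟩
      · simp only [cnt]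
        rw [lower_full r hr β]
        simp [hc]
      · have := sq_prd r hr
        rw [e, hsqr1] at this
        rw [← e] at this
        simp only [FF]
        omega
      · intro β' r' hp' hv' hc' hF'
        obtain ⟨h1, h2, h3⟩ := cnt_eq hc' hF'
        obtain ⟨h4, h5⟩ := prd_mem_lower hp' h1
        have hne' : r' ≠ [] := by
          intro h0
          subst h0
          simp only [List.length_nil] at h4
          omega
        have hβ := h5 hne'
        subst hβ
        obtain ⟨a', b', r1', ha2, ha2', hp1', hv1', e'⟩ := nv_prd r' hne' hp' hv'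
        rw [e', hstrip As β a' r1' b' ha2] at h2
        rw [e', hsqr1] at h3
        obtain ⟨h6, h7⟩ := hu1 _ r1' hp1' hv1' h2 h3
        subst h6
        have hab : a' = a := by
          by_cases hr1 : r1' = []
          · rw [ha' hr1, ha2' hr1]
          · have h8 := h7 hr1
            by_cases h9 : a' = 0
            · by_cases h10 : a = 0
              · omega
              · simp [h9, h10] at h8
            · by_cases h10 : a = 0
              · simp [h9, h10] at h8
              · omega
        subst hab
        have hbb : b' = b := by
          have l1 : (prd r).length = r.length := by simp [prd]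
          have l2 : (prd r').length = r'.length := by simp [prd]
          rw [e] at l1
          rw [e'] at l2
          simp only [List.length_append, List.length_replicate] at l1 l2
          omega
        subst hbb
        exact ⟨prd_inj _ _ hp' hr (by rw [e, e']), fun _ => rfl⟩

end Pool.Agent.K9h82.QS
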