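import Pool.Agent.K9h82.QS.Tw

/-! The commutant lemma. -/

set_option linter.all false

namespace Pool.Agent.K9h82.QS

universe u

open Polynomial

section comm
variable {K : Type u} [Field K] {q : K} {R : Type*} [Ring R] [Algebra K R]

/-- every element commuting with the generators is central -/
def Cent {R : Type*} [Ring R] (g : Bool → R) : Prop :=
  ∀ c : R, (∀ β, g β * c = c * g β) → ∀ r, r * c = c * r

/-- the twisted generators over the polynomial ring -/
noncomputable def tg (g κ : Bool → R) (β : Bool) : Matrix Bool Bool R[X] :=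
  twg (X : R[X]) (fun β => C (g β)) (fun β => C (κ β)) β

theorem entry_eq (g κ : Bool → R) (T : Matrix Bool Bool R[X]) (β : Bool)
    (hT : tg g κ β * T = T * tg g κ β) (c d : Bool) (n : ℕ) :
    g β * (T c d).coeff (n + 1) + (if c = β then κ β * (T (!β) d).coeff n else 0)
      = (T c d).coeff (n + 1) * g β + (if d = !β then (T c β).coeff n * κ β else 0) := by
  have h := congrFun (congrFun hT c) d
  unfold tg at h
  rw [twg_mul_apply, mul_twg_apply] at h
  have h1 := congrArg (fun p : R[X] => p.coeff (n + 1)) h
  simp only [coeff_add, coeff_C_mul, coeff_mul_C] at h1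
  have e1 : ((if c = β then X * C (κ β) * T (!β) d else 0 : R[X])).coeff (n + 1)
      = if c = β then κ β * (T (!β) d).coeff n else 0 := by
    split_ifs with hc
    · rw [mul_assoc, coeff_X_mul, coeff_C_mul]
    · simp
  have e2 : ((if d = !β then T c β * (X * C (κ β)) else 0 : R[X])).coeff (n + 1)
      = if d = !β then (T c β).coeff n * κ β else 0 := by
    split_ifs with hc
    · rw [X_mul_C, ← mul_assoc, coeff_mul_X, coeff_mul_C]
    · simp
  rw [e1, e2] at h1
  exact h1

theorem entry_eq_zero (g κ : Bool → R) (T : Matrix Bool Bool R[X]) (β : Bool)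
    (hT : tg g κ β * T = T * tg g κ β) (c d : Bool) :
    g β * (T c d).coeff 0 = (T c d).coeff 0 * g β := by
  have h := congrFun (congrFun hT c) d
  unfold tg at h
  rw [twg_mul_apply, mul_twg_apply] at h
  have h1 := congrArg (fun p : R[X] => p.coeff 0) h
  simp only [coeff_add, coeff_C_mul, coeff_mul_C] at h1
  have e1 : ((if c = β then X * C (κ β) * T (!β) d else 0 : R[X])).coeff 0 = 0 := by
    split_ifs with hc
    · rw [mul_assoc, mul_coeff_zero, coeff_X_zero, zero_mul]
    · simp
  have e2 : ((if d = !β then T c β * (X * C (κ β)) else 0 : R[X])).coeff 0 = 0 := by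
    split_ifs with hc
    · rw [X_mul_C, ← mul_assoc, mul_coeff_zero, coeff_X_zero, mul_zero]
    · simp
  rw [e1, e2, add_zero, add_zero] at h1
  exact h1

/-- the key algebraic step -/
theorem key_step {g κ : Bool → R} (h : IsSys q g κ) (hq0 : q ≠ 0) (hq : 1 + q ^ 2 ≠ 0) (β : Bool)
    (a d o : R)
    (h1 : g β * a + κ β * o = a * g β) (h2 : κ β * d = a * κ β)
    (h4 : g β * d = d * g β + o * κ β) : o = 0 := by
  have e1 : κ β * (g β * d - d * g β) = κ β * o * κ β := by
    rw [h4, add_sub_cancel_left, mul_assoc]
  have e2 : κ β * (g β * d - d * g β) = q ^ 2 • ((g β * a - a * g β) * κ β) := by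
    have s1 : κ β * g β = q ^ 2 • (g β * κ β) := h.same β
    calc κ β * (g β * d - d * g β) = (κ β * g β) * d - (κ β * d) * g β := by noncomm_ring
      _ = q ^ 2 • (g β * (a * κ β)) - a * (κ β * g β) := by
        rw [s1, smul_mul_assoc, mul_assoc (g β), h2, mul_assoc a]
        rw [s1]
      _ = q ^ 2 • (g β * (a * κ β)) - q ^ 2 • (a * (g β * κ β)) := by
        rw [s1, mul_smul_comm]
      _ = _ := by
        rw [← smul_sub]
        noncomm_ring
  have e3 : g β * a - a * g β = - (κ β * o) := by
    rw [← h1]; abel
  rw [e3, e1] at e2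
  have e4 : (1 + q ^ 2) • (κ β * o * κ β) = 0 := by
    rw [add_smul, one_smul]
    nth_rewrite 1 [e2]
    rw [neg_mul, smul_neg]
    abel
  have e5 : κ β * o * κ β = 0 := (smul_eq_zero.mp e4).resolve_left hq
  have i1 : κ (!β) * κ β = 1 := by
    have := h.inv (!β)
    rwa [Bool.not_not] at this
  have i2 : κ β * κ (!β) = 1 := h.inv β
  calc o = (κ (!β) * κ β) * o * (κ β * κ (!β)) := by rw [i1, i2, one_mul, mul_one]
    _ = κ (!β) * (κ β * o * κ β) * κ (!β) := by noncomm_ring
    _ = 0 := by rw [e5, mul_zero, zero_mul]

theorem commutant {g κ : Bool → R} (h : IsSys q g κ) (hq0 : q ≠ 0) (hq : 1 + q ^ 2 ≠ 0)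
    (hc : Cent g) (T : Matrix Bool Bool R[X])
    (hT : ∀ β, tg g κ β * T = T * tg g κ β) :
    ∃ P : R[X], (∀ n r, r * P.coeff n = P.coeff n * r) ∧ T = Matrix.scalar Bool P := by
  -- off-diagonal entries vanish
  have hoff : ∀ N n, N ≤ n + ((T true false).natDegree + (T false true).natDegree + 1) + 1 →
      (N ≤ (T true false).natDegree + (T false true).natDegree + 1 + n) →
      ∀ β, ∀ m, (T true false).natDegree + (T false true).natDegree + 1 ≤ m + N →
      (T (!β) β).coeff m = 0 := by
    intro N
    induction N with
    | zero =>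
      intro n _ _ β m hm
      apply coeff_eq_zero_of_natDegree_lt
      cases β <;> simp only [Bool.not_true, Bool.not_false] <;> omega
    | succ N ih =>
      intro n _ _ β m hm
      have ih' := ih N (by omega) (by omega)
      have z1 : (T β (!β)).coeff (m + 2) = 0 := by
        have := ih' (!β) (m + 2) (by omega)
        rwa [Bool.not_not] at this
      have r1 := entry_eq g κ T β (hT β) β β m
      have r2 := entry_eq g κ T β (hT β) β (!β) (m + 1)
      have r4 := entry_eq g κ T β (hT β) (!β) (!β) m
      have n1 : (β = !β) = False := by cases β <;> simp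
      have n2 : ((!β) = β) = False := by cases β <;> simp
      rw [z1] at r2
      simp only [n1, n2, if_true, if_false, add_zero, mul_zero, zero_mul, zero_add] at r1 r2 r4
      exact key_step h hq0 hq β _ _ _ r1 r2 r4
  have hoff' : ∀ β, T (!β) β = 0 := by
    intro β
    ext m
    rw [coeff_zero]
    exact hoff ((T true false).natDegree + (T false true).natDegree + 1)
      ((T true false).natDegree + (T false true).natDegree + 1) (by omega) (by omega) β m (by omega)
  have hoffa : T false true = 0 := hoff' true
  have hoffb : T true false = 0 := hoff' false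
  -- diagonal entries commute with generators
  have hdiag : ∀ c β n, g β * (T c c).coeff n = (T c c).coeff n * g β := by
    intro c β n
    cases n with
    | zero => exact entry_eq_zero g κ T β (hT β) c c
    | succ n =>
      have r := entry_eq g κ T β (hT β) c c n
      cases β <;> cases c <;> simp [hoffa, hoffb] at r ⊢ <;> exact r
  have hcen : ∀ c n r, r * (T c c).coeff n = (T c c).coeff n * r := fun c n r =>
    hc _ (fun β => hdiag c β n) r
  have heq : T true true = T false false := by
    ext n
    have r := entry_eq g κ T true (hT true) true false n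
    rw [hoffb] at r
    simp only [coeff_zero, mul_zero, zero_mul, Bool.not_true, if_true, zero_add] at r
    rw [← hcen true n] at r
    have i2 : κ (false) * κ true = 1 := h.inv false
    have r' := congrArg (fun w => κ false * w) r
    simp only [← mul_assoc, i2, one_mul] at r'
    exact r'.symm
  refine ⟨T true true, fun n r => hcen true n r, ?_⟩
  ext c d n
  cases c <;> cases d <;> simp [hoffa, hoffb, heq]

theorem scalar_central {g : Bool → R} (P : R[X])
    (hP : ∀ n r, r * P.coeff n = P.coeff n * r) (M : Matrix Bool Bool R[X]) :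
    M * Matrix.scalar Bool P = Matrix.scalar Bool P * M := by
  have hP' : ∀ p : R[X], p * P = P * p := by
    intro p
    induction p using Polynomial.induction_on' with
    | add p r hp hr => rw [add_mul, mul_add, hp, hr]
    | monomial n a =>
      ext m
      rw [← C_mul_X_pow_eq_monomial, mul_assoc, ← mul_assoc P, ← mul_assoc, coeff_mul_X_pow',
        mul_assoc, X_pow_mul, ← mul_assoc, coeff_mul_X_pow']
      split_ifs
      · rw [coeff_C_mul, coeff_mul_C, hP]
      · rfl
  ext1 c d
  simp [Matrix.mul_apply, Matrix.scalar_apply, Matrix.diagonal_apply, hP']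

theorem cent_tg {g κ : Bool → R} (h : IsSys q g κ) (hq0 : q ≠ 0) (hq : 1 + q ^ 2 ≠ 0)
    (hc : Cent g) : Cent (tg g κ) := by
  intro T hT M
  obtain ⟨P, hP, rfl⟩ := commutant h hq0 hq hc T hT
  exact scalar_central (g := g) P hP M

end comm

end Pool.Agent.K9h82.QS
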