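import Pool.Agent.K9h82.QS.Serre

/-! The elimination lemma. -/

set_option linter.all false

namespace Pool.Agent.K9h82.QS

open Polynomial

variable {K : Type*} [Field K] {A : Type*} [Ring A] [Algebra K A]

/-- `EE g u N p = ∑_{i ≤ N} p_i g^i u g^{N-i}` -/
noncomputable def EE (g u : A) (N : ℕ) (p : K[X]) : A :=
  ∑ i ∈ Finset.range (N + 1), p.coeff i • (g ^ i * u * g ^ (N - i))

theorem EE_add (g u : A) (N : ℕ) (p r : K[X]) :
    EE g u N (p + r) = EE g u N p + EE g u N r := by
  simp [EE, add_smul, Finset.sum_add_distrib]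

theorem EE_sub (g u : A) (N : ℕ) (p r : K[X]) :
    EE g u N (p - r) = EE g u N p - EE g u N r := by
  simp [EE, sub_smul, Finset.sum_sub_distrib]

theorem EE_smul (g u : A) (N : ℕ) (c : K) (p : K[X]) :
    EE g u N (C c * p) = c • EE g u N p := by
  simp [EE, Finset.smul_sum, smul_smul]

theorem EE_zero (g u : A) (N : ℕ) : EE g u N (0 : K[X]) = 0 := by simp [EE]

theorem EE_sum {ι : Type*} (s : Finset ι) (g u : A) (N : ℕ) (p : ι → K[X]) :
    EE g u N (∑ i ∈ s, p i) = ∑ i ∈ s, EE g u N (p i) := by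
  classical
  induction s using Finset.induction_on with
  | empty => simp [EE_zero]
  | insert a s ha ih => rw [Finset.sum_insert ha, Finset.sum_insert ha, EE_add, ih]

theorem EE_X_pow (g u : A) (N i : ℕ) (h : i ≤ N) :
    EE g u N (X ^ i : K[X]) = g ^ i * u * g ^ (N - i) := by
  unfold EE
  rw [Finset.sum_eq_single i]
  · simp
  · intro j _ hj
    simp [coeff_X_pow, hj]
  · intro hi
    exact absurd (Finset.mem_range.mpr (by omega)) hi

theorem EE_X_mul (g u : A) (N : ℕ) (p : K[X]) :
    EE g u (N + 1) (X * p) = g * EE g u N p := by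
  unfold EE
  rw [Finset.sum_range_succ', Finset.mul_sum]
  simp only [coeff_X_mul, mul_coeff_zero, coeff_X_zero, zero_mul, zero_smul, add_zero]
  refine Finset.sum_congr rfl fun i hi => ?_
  rw [mul_smul_comm, pow_succ', Nat.add_sub_add_right]
  simp [mul_assoc]

theorem EE_succ (g u : A) (N : ℕ) (p : K[X]) (hp : p.coeff (N + 1) = 0) :
    EE g u (N + 1) p = EE g u N p * g := by
  unfold EE
  rw [Finset.sum_range_succ, hp, zero_smul, add_zero, Finset.sum_mul]
  refine Finset.sum_congr rfl fun i hi => ?_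
  have : N + 1 - i = (N - i) + 1 := by
    have := Finset.mem_range.mp hi
    omega
  rw [this, pow_succ, smul_mul_assoc]
  simp [mul_assoc]

theorem EE_add_right (g u : A) (N e : ℕ) (p : K[X]) (hp : p.natDegree ≤ N) :
    EE g u (N + e) p = EE g u N p * g ^ e := by
  induction e with
  | zero => simp
  | succ e ih =>
    rw [← add_assoc, EE_succ, ih, pow_succ, mul_assoc]
    exact coeff_eq_zero_of_natDegree_lt (by omega)

/-- the product `∏_{k<m} (X - c q^{2k})` -/
noncomputable def PP (q c : K) (m : ℕ) : K[X] := ∏ k ∈ Finset.range m, (X - C (c * q ^ (2 * k)))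

theorem PP_natDegree (q c : K) (m : ℕ) : (PP q c m).natDegree = m := by
  unfold PP
  rw [natDegree_prod_of_monic _ _ (fun i _ => monic_X_sub_C _)]
  rw [Finset.sum_congr rfl (fun i _ => natDegree_X_sub_C _)]
  simp

theorem PP_monic (q c : K) (m : ℕ) : (PP q c m).Monic := by
  unfold PP
  exact monic_prod_of_monic _ _ (fun i _ => monic_X_sub_C _)

theorem EE_PP (q c : K) (g u : A) (m : ℕ) : EE g u m (PP q c m) = D q g c u m := by
  induction m with
  | zero => simp [PP, EE, D]
  | succ m ih =>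
    have : PP q c (m + 1) = X * PP q c m - C (c * q ^ (2 * m)) * PP q c m := by
      unfold PP
      rw [Finset.prod_range_succ]
      ring
    rw [this, EE_sub, EE_X_mul, EE_smul, EE_succ, ih]
    · rfl
    · exact coeff_eq_zero_of_natDegree_lt (by rw [PP_natDegree]; omega)

theorem EE_mul_zero (q c : K) (g u : A) (m N : ℕ) (hD : D q g c u m = 0) (G : K[X])
    (hG : m + G.natDegree ≤ N) : EE g u N (PP q c m * G) = 0 := by
  have key : ∀ (j N : ℕ), m + j ≤ N → EE g u N (X ^ j * PP q c m) = 0 := by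
    intro j
    induction j with
    | zero =>
      intro N h
      obtain ⟨e, rfl⟩ := Nat.exists_eq_add_of_le (show m ≤ N by omega)
      rw [pow_zero, one_mul, EE_add_right _ _ _ _ _ (by rw [PP_natDegree]), EE_PP, hD, zero_mul]
    | succ j ih =>
      intro N h
      obtain ⟨N, rfl⟩ : ∃ N', N = N' + 1 := ⟨N - 1, by omega⟩
      rw [pow_succ', mul_assoc, EE_X_mul, ih N (by omega), mul_zero]
  have hsum : PP q c m * G = ∑ j ∈ Finset.range (G.natDegree + 1),
      C (G.coeff j) * (X ^ j * PP q c m) := by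
    conv_lhs => rw [G.as_sum_range_C_mul_X_pow, Finset.mul_sum]
    refine Finset.sum_congr rfl fun j _ => ?_
    ring
  rw [hsum, EE_sum]
  refine Finset.sum_eq_zero fun j hj => ?_
  rw [EE_smul, key j N, smul_zero]
  have := Finset.mem_range.mp hj
  omega

/-- node positions: `j` for `j < b`, `N - 2b + j` for `b ≤ j ≤ 2b`. -/
def node (b N : ℕ) (j : Fin (2 * b + 1)) : ℕ := if j.1 < b then j.1 else N - 2 * b + j.1

theorem exists_lam (q : K) (hq : ∀ n : ℕ, 0 < n → q ^ n ≠ 1) (hq0 : q ≠ 0) (b N a : ℕ)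
    (hN : 2 * b + 1 ≤ N) :
    ∃ lam : Fin (2 * b + 1) → K, ∀ k : Fin (2 * b + 1),
      ∑ j, lam j * (q ^ (2 * node b N j)) ^ (k : ℕ) = (q ^ (2 * a)) ^ (k : ℕ) := by
  classical
  have hinj : Function.Injective (fun j : Fin (2 * b + 1) => q ^ (2 * node b N j)) := by
    have hpow : ∀ m n : ℕ, m < n → q ^ (2 * m) ≠ q ^ (2 * n) := by
      intro m n hmn h
      apply hq (2 * n - 2 * m) (by omega)
      have h1 : q ^ (2 * n) = q ^ (2 * m) * q ^ (2 * n - 2 * m) := by
        rw [← pow_add]; congr 1; omega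
      rw [h1] at h
      have h2 : q ^ (2 * m) ≠ 0 := pow_ne_zero _ hq0
      have h3 : q ^ (2 * m) * q ^ (2 * n - 2 * m) = q ^ (2 * m) * 1 := by rw [← h, mul_one]
      exact mul_left_cancel₀ h2 h3
    have hpow' : ∀ m n : ℕ, q ^ (2 * m) = q ^ (2 * n) → m = n := by
      intro m n h
      rcases lt_trichotomy m n with h1 | h1 | h1
      · exact absurd h (hpow m n h1)
      · exact h1
      · exact absurd h.symm (hpow n m h1)
    intro i j hij
    have := hpow' _ _ hij
    unfold node at this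
    apply Fin.ext
    split_ifs at this <;> omega
  set V : Matrix (Fin (2 * b + 1)) (Fin (2 * b + 1)) K :=
    Matrix.vandermonde (fun j : Fin (2 * b + 1) => q ^ (2 * node b N j)) with hV
  have hdet : IsUnit V.det := by
    rw [isUnit_iff_ne_zero]
    exact Matrix.det_vandermonde_ne_zero_iff.mpr hinj
  refine ⟨Matrix.vecMul (fun k : Fin (2 * b + 1) => (q ^ (2 * a)) ^ (k : ℕ)) V⁻¹, fun k => ?_⟩
  have h1 : Matrix.vecMul (Matrix.vecMul (fun k : Fin (2 * b + 1) => (q ^ (2 * a)) ^ (k : ℕ)) V⁻¹) V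
      = fun k : Fin (2 * b + 1) => (q ^ (2 * a)) ^ (k : ℕ) := by
    rw [Matrix.vecMul_vecMul, Matrix.nonsing_inv_mul _ hdet, Matrix.vecMul_one]
  have h2 := congrFun h1 k
  rw [← h2]
  rfl

/-- elimination lemma -/
theorem elim_mem (q : K) (hq : ∀ n : ℕ, 0 < n → q ^ n ≠ 1) (hq0 : q ≠ 0) (g u : A) (c : K)
    (hc0 : c ≠ 0) (b : ℕ) (hD : D q g c u (2 * b + 1) = 0) (N a : ℕ) (hN : 2 * b + 1 ≤ N)
    (ha : a ≤ N) :
    g ^ a * u * g ^ (N - a) ∈ Submodule.span K
      {w : A | ∃ i, i ≤ N ∧ (i < b ∨ N - i ≤ b) ∧ w = g ^ i * u * g ^ (N - i)} := by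
  classical
  obtain ⟨lam, hlam⟩ := exists_lam q hq hq0 b N a hN
  have hnode : ∀ j, node b N j ≤ N := by
    intro j
    unfold node
    split_ifs <;> omega
  -- the polynomial
  set F : K[X] := X ^ a - ∑ j, C (lam j * c ^ a / c ^ node b N j) * X ^ node b N j with hF
  have hFdeg : F.natDegree ≤ N := by
    refine (natDegree_sub_le _ _).trans (max_le ?_ ?_)
    · rw [natDegree_X_pow]; exact ha
    · refine natDegree_sum_le_of_forall_le _ _ fun j _ => ?_
      exact (natDegree_C_mul_X_pow_le _ _).trans (hnode j)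
  have hroot : ∀ k, k < 2 * b + 1 → F.eval (c * q ^ (2 * k)) = 0 := by
    intro k hk
    have h1 := hlam ⟨k, hk⟩
    simp only at h1
    rw [hF, eval_sub, eval_pow, eval_X, eval_finsetSum]
    simp only [eval_mul, eval_C, eval_pow, eval_X]
    have h2 : ∀ j : Fin (2 * b + 1),
        lam j * c ^ a / c ^ node b N j * (c * q ^ (2 * k)) ^ node b N j
          = c ^ a * (lam j * (q ^ (2 * node b N j)) ^ k) := by
      intro j
      have hc : c ^ node b N j ≠ 0 := pow_ne_zero _ hc0
      rw [mul_pow, ← pow_mul, ← pow_mul]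
      have e : 2 * k * node b N j = 2 * node b N j * k := by ring
      rw [e]
      field_simp
    rw [Finset.sum_congr rfl (fun j _ => h2 j), ← Finset.mul_sum, h1, mul_pow, ← pow_mul, ← pow_mul]
    have e : 2 * k * a = 2 * a * k := by ring
    rw [e, sub_self]
  have hdvd : PP q c (2 * b + 1) ∣ F := by
    unfold PP
    refine Finset.prod_dvd_of_coprime ?_ ?_
    · have hinj : Function.Injective (fun k : ℕ => c * q ^ (2 * k)) := by
        have hpow : ∀ m n : ℕ, m < n → q ^ (2 * m) ≠ q ^ (2 * n) := by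
          intro m n hmn h
          apply hq (2 * n - 2 * m) (by omega)
          have h1 : q ^ (2 * n) = q ^ (2 * m) * q ^ (2 * n - 2 * m) := by
            rw [← pow_add]; congr 1; omega
          rw [h1] at h
          have h2 : q ^ (2 * m) ≠ 0 := pow_ne_zero _ hq0
          have h3 : q ^ (2 * m) * q ^ (2 * n - 2 * m) = q ^ (2 * m) * 1 := by rw [← h, mul_one]
          exact mul_left_cancel₀ h2 h3
        intro m n h
        have h' := mul_left_cancel₀ hc0 h
        rcases lt_trichotomy m n with h1 | h1 | h1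
        · exact absurd h' (hpow m n h1)
        · exact h1
        · exact absurd h'.symm (hpow n m h1)
      intro i _ j _ hij
      exact pairwise_coprime_X_sub_C hinj hij
    · intro k hk
      rw [dvd_iff_isRoot]
      exact hroot k (Finset.mem_range.mp hk)
  obtain ⟨G, hG⟩ := hdvd
  have hE : EE g u N F = 0 := by
    by_cases hG0 : G = 0
    · rw [hG, hG0, mul_zero, EE_zero]
    · rw [hG]
      refine EE_mul_zero q c g u (2 * b + 1) N hD G ?_
      have : F.natDegree = (2 * b + 1) + G.natDegree := by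
        rw [hG, (PP_monic q c _).natDegree_mul' hG0, PP_natDegree]
      omega
  rw [hF, EE_sub, EE_X_pow _ _ _ _ ha, EE_sum, sub_eq_zero] at hE
  rw [hE]
  refine Submodule.sum_mem _ fun j _ => ?_
  rw [EE_smul, EE_X_pow _ _ _ _ (hnode j)]
  refine Submodule.smul_mem _ _ (Submodule.subset_span ⟨node b N j, hnode j, ?_, rfl⟩)
  unfold node
  split_ifs with h
  · left; exact h
  · right; omega

end Pool.Agent.K9h82.QS
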