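import Pool.Agent.K9h82.QS.Fun
import Pool.Agent.K9h82.QS.Comb

/-! The center is trivial. -/

set_option linter.all false

namespace Pool.Agent.K9h82.QS

universe u

variable {K : Type u} [Field K] {q : K}

/-- index set of valley-free words -/
def Idx : Type := {p : Bool × List ℕ // Pos p.2 ∧ NV p.2 ∧ (p.2 = [] → p.1 = true)}

/-- the monomial of an index -/
noncomputable def vmon (q : K) (i : Idx) : UPos K q := mon (gen q) i.1.1 i.1.2

theorem span_vmon (hq0 : q ≠ 0) (hq : ∀ n : ℕ, 0 < n → q ^ n ≠ 1) :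
    Submodule.span K (Set.range (vmon q)) = (⊤ : Submodule K (UPos K q)) := by
  have h1 : ∀ β r, mon (gen q) β r ∈ Submodule.span K (Set.range (vmon q)) := by
    intro β r
    refine Submodule.span_le.mpr ?_ (span_NV q hq hq0 (gen q) (gen_serre q) β r)
    rintro w ⟨β', r', hp, hv, rfl⟩
    by_cases hr : r' = []
    · subst hr
      exact Submodule.subset_span ⟨⟨(true, []), hp, hv, fun _ => rfl⟩, rfl⟩
    · exact Submodule.subset_span ⟨⟨(β', r'), hp, hv, fun h => absurd h hr⟩, rfl⟩
  apply eq_top_of_left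
  · exact h1 true []
  · intro β w hw
    induction hw using Submodule.span_induction with
    | mem w hw =>
      obtain ⟨i, rfl⟩ := hw
      unfold vmon
      by_cases hβ : i.1.1 = β
      · have e : gen q β * mon (gen q) i.1.1 i.1.2 = mon (gen q) β (1 :: 0 :: i.1.2) := by
          simp [mon, hβ]
        rw [e]
        exact h1 _ _
      · have hβ' : i.1.1 = !β := by
          cases h : i.1.1 <;> cases β <;> simp_all
        have e : gen q β * mon (gen q) i.1.1 i.1.2 = mon (gen q) β (1 :: i.1.2) := by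
          simp [mon, hβ']
        rw [e]
        exact h1 _ _
    | zero => rw [mul_zero]; exact Submodule.zero_mem _
    | add x y _ _ hx hy => rw [mul_add]; exact Submodule.add_mem _ hx hy
    | smul t x _ hx => rw [mul_smul_comm]; exact Submodule.smul_mem _ _ hx

theorem eq_zero_of_fun (hq0 : q ≠ 0) (hq : ∀ n : ℕ, 0 < n → q ^ n ≠ 1) (z : UPos K q)
    (hz : ∀ As : List (Bool × ℕ), ∃ Ξ : UPos K q →ₗ[K] K, Ξ z = 0 ∧ ∀ (β : Bool) (r : List ℕ),
      (cnt As β r = 0 → Ξ (mon (gen q) β r) = 0) ∧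
      (cnt As β r = 1 → Ξ (mon (gen q) β r) ≠ 0)) : z = 0 := by
  classical
  have hmem : z ∈ Submodule.span K (Set.range (vmon q)) := by
    rw [span_vmon hq0 hq]; trivial
  rw [Finsupp.mem_span_range_iff_exists_finsupp] at hmem
  obtain ⟨c, hc⟩ := hmem
  by_contra hne
  have hsupp : c.support.Nonempty := by
    rw [Finsupp.support_nonempty_iff]
    rintro rfl
    apply hne
    rw [← hc]
    simp
  obtain ⟨i, hi, hmin⟩ := Finset.exists_min_image c.support (fun i => sq i.1.2) hsupp
  obtain ⟨As, hcnt, hF, huniq⟩ := exists_canon (i.1.2.sum + 1) i.1.2 i.1.1 (by omega) i.2.1 i.2.2.1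
  obtain ⟨Ξ, hΞ0, hΞ⟩ := hz As
  have hval : Ξ z = c i * Ξ (vmon q i) := by
    rw [← hc, Finsupp.sum, map_sum, Finset.sum_eq_single_of_mem i hi]
    · rw [map_smul, smul_eq_mul]
    · intro j hj hji
      rw [map_smul]
      have : cnt As j.1.1 j.1.2 = 0 := by
        by_contra hcj
        apply hji
        obtain ⟨-, hle⟩ := cnt_facts As j.1.1 j.1.2 hcj
        have h1 : sq i.1.2 ≤ sq j.1.2 := hmin j hj
        obtain ⟨h2, h3⟩ := huniq j.1.1 j.1.2 j.2.1 j.2.2.1 hcj (by omega)
        apply Subtype.ext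
        apply Prod.ext
        · by_cases hr : i.1.2 = []
          · rw [i.2.2.2 hr, j.2.2.2 (by rw [h2, hr])]
          · exact h3 hr
        · exact h2
      rw [show Ξ (vmon q j) = 0 from (hΞ _ _).1 this, smul_zero]
  rw [hΞ0] at hval
  have h1 : c i ≠ 0 := by simpa using hi
  have h2 : Ξ (vmon q i) ≠ 0 := (hΞ _ _).2 hcnt
  exact mul_ne_zero h1 h2 hval.symm

/-- central elements are scalars -/
theorem central_scalar (hq0 : q ≠ 0) (hq : ∀ n : ℕ, 0 < n → q ^ n ≠ 1) (z : UPos K q)
    (hz : ∀ u, u * z = z * u) : z = algebraMap K _ (aug K q z) := by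
  rw [← sub_eq_zero]
  apply eq_zero_of_fun hq0 hq
  intro As
  obtain ⟨Ξ, h1, h2⟩ := exists_fun' hq0 hq As
  refine ⟨Ξ, ?_, h2⟩
  rw [map_sub, h1 z hz, sub_self]

theorem center_eq_bot (hq0 : q ≠ 0) (hq : ∀ n : ℕ, 0 < n → q ^ n ≠ 1) :
    Subalgebra.center K (UPos K q) = ⊥ := by
  rw [eq_bot_iff]
  intro z hz
  rw [Subalgebra.mem_center_iff] at hz
  rw [Algebra.mem_bot]
  exact ⟨aug K q z, (central_scalar hq0 hq z hz).symm⟩

theorem algebraMap_inj (K : Type u) [Field K] (q : K) :
    Function.Injective (algebraMap K (UPos K q)) := by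
  intro a b h
  have h1 := congrArg (aug K q) h
  rw [AlgHom.commutes, AlgHom.commutes] at h1
  exact h1

end Pool.Agent.K9h82.QS
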