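import Pool.Agent.K9h82.QS.Sep

/-! Separating functionals. -/

set_option linter.all false

namespace Pool.Agent.K9h82.QS

universe u

open Polynomial

/-- the augmentation -/
noncomputable def aug (K : Type u) [Field K] (q : K) : UPos K q →ₐ[K] K :=
  rho (q := q) (fun _ => (0 : K)) (by intro β; simp [serre])

/-- systems in which central elements act by their augmentation -/
structure GSys (K : Type u) [Field K] (q : K) where
  R : Type u
  [ring : Ring R]
  [alg : Algebra K R]
  g : Bool → R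
  κ : Bool → R
  sys : IsSys q g κ
  cent : Cent g
  good : ∀ z : UPos K q, (∀ u, u * z = z * u) → rho g sys.serre z = algebraMap K R (aug K q z)

attribute [instance] GSys.ring GSys.alg

variable {K : Type u} [Field K] {q : K}

theorem isSys_base : IsSys q (fun _ : Bool => (0 : K)) (fun _ => 1) := by
  refine ⟨?_, ?_, ?_, ?_⟩ <;> intro β <;> simp [serre]

/-- trivial system -/
noncomputable def baseSys (K : Type u) [Field K] (q : K) : GSys K q where
  R := K
  g := fun _ => 0
  κ := fun _ => 1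
  sys := isSys_base
  cent := fun c _ r => mul_comm r c
  good := fun z _ => rfl

/-- twisted system -/
noncomputable def twSys (hq0 : q ≠ 0) (hq : ∀ n : ℕ, 0 < n → q ^ n ≠ 1) (S : GSys K q) :
    GSys K q where
  R := Matrix Bool Bool S.R[X]
  g := tg S.g S.κ
  κ := tk q S.κ
  sys := isSys_tg hq0 S.sys
  cent := by
    have hq2 : 1 + q ^ 2 ≠ 0 := by
      intro e
      apply hq 4 (by norm_num)
      have : q ^ 2 = -1 := by linear_combination e
      calc q ^ 4 = (q ^ 2) ^ 2 := by ring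
        _ = 1 := by rw [this]; ring
    exact cent_tg S.sys hq0 hq2 S.cent
  good := by
    intro z hz
    rw [good_step S.sys hq0 hq S.cent z hz, S.good z hz]
    have e1 : (C (algebraMap K S.R (aug K q z)) : S.R[X]) = algebraMap K S.R[X] (aug K q z) := rfl
    rw [e1, AlgHom.commutes]

theorem mon_map {A B : Type*} [Ring A] [Algebra K A] [Ring B] [Algebra K B] (f : A →ₐ[K] B)
    (g : Bool → A) (r : List ℕ) : ∀ β, f (mon g β r) = mon (fun β => f (g β)) β r := by
  induction r with
  | nil => intro β; simp [mon]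
  | cons n r ih => intro β; simp [mon, ih]

theorem mon_zero (r : List ℕ) : ∀ β, mon (fun _ : Bool => (0 : K)) β r =
    if ∀ x ∈ r, x = 0 then 1 else 0 := by
  induction r with
  | nil => intro β; simp [mon]
  | cons n r ih =>
    intro β
    simp only [mon, ih]
    by_cases hn : n = 0
    · subst hn; simp
    · simp [hn]

/-- extraction as a linear map -/
noncomputable def PhiL (K : Type*) [Field K] {R : Type*} [Ring R] [Algebra K R]
    (a : Bool) (ℓ : ℕ) : Matrix Bool Bool R[X] →ₗ[K] R where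
  toFun := Phi a ℓ
  map_add' := by intro x y; simp [Phi]
  map_smul' := by intro c x; simp [Phi]

theorem tk_kp {R : Type*} [Ring R] [Algebra K R] {g κ : Bool → R} (h : IsSys q g κ) (hq0 : q ≠ 0)
    (a b : ℕ) (a₀ : Bool) (ℓ : ℕ) (M : Matrix Bool Bool R[X]) :
    ∃ c : K, c ≠ 0 ∧ Phi a₀ ℓ (M * kp (tk q κ) a b) = c • (Phi a₀ ℓ M * kp κ a b) := by
  -- diagonal form
  have hdiag : ∀ a b : ℕ, ∃ l : Bool → K, (∀ c, l c ≠ 0) ∧ ∀ c d, kp (tk q κ) a b c d =
      if c = d then l c • (C (kp κ a b) : R[X]) else 0 := by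
    have hpow : ∀ (γ : Bool) (a : ℕ), ∃ l : Bool → K, (∀ c, l c ≠ 0) ∧
        ∀ c d, (tk q κ γ ^ a) c d = if c = d then l c • (C (κ γ ^ a) : R[X]) else 0 := by
      intro γ a
      induction a with
      | zero => exact ⟨fun _ => 1, fun _ => one_ne_zero, fun c d => by
          by_cases hcd : c = d <;> simp [hcd]⟩
      | succ a ih =>
        obtain ⟨l, hl, e⟩ := ih
        refine ⟨fun c => l c * (if c = γ then q else q⁻¹), ?_, ?_⟩
        · intro c
          refine mul_ne_zero (hl c) ?_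
          split_ifs
          · exact hq0
          · exact inv_ne_zero hq0
        · intro c d
          rw [pow_succ, Matrix.mul_apply, Fintype.sum_bool, e, e]
          have hh : ∀ t : K, (C (κ γ) : R[X]) ^ a * C (t • κ γ) = t • (C (κ γ) ^ a * C (κ γ)) := by
            intro t
            rw [← smul_C, mul_smul_comm]
          cases c <;> cases d <;> simp [tk, twk, pow_succ, smul_smul]
          all_goals (split_ifs <;> rw [hh, smul_smul])
    intro a b
    obtain ⟨l1, hl1, e1⟩ := hpow true a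
    obtain ⟨l2, hl2, e2⟩ := hpow false b
    refine ⟨fun c => l1 c * l2 c, fun c => mul_ne_zero (hl1 c) (hl2 c), ?_⟩
    intro c d
    unfold kp
    rw [Matrix.mul_apply, Fintype.sum_bool, e1, e1, e2, e2]
    cases c <;> cases d <;> simp [smul_smul, mul_comm]
  obtain ⟨l, hl, e⟩ := hdiag a b
  refine ⟨l (col a₀ ℓ), hl _, ?_⟩
  unfold Phi
  rw [Matrix.mul_apply, Fintype.sum_bool, e, e]
  generalize col a₀ ℓ = c
  cases c <;> simp

/-- the separating property -/
def HasFun (As : List (Bool × ℕ)) {R : Type*} [Ring R] [Algebra K R] (g κ : Bool → R)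
    (Ξ : R →ₗ[K] K) : Prop :=
  ∀ (β : Bool) (r : List ℕ) (a b : ℕ),
      (cnt As β r = 0 → Ξ (mon g β r * kp κ a b) = 0) ∧
      (cnt As β r = 1 → Ξ (mon g β r * kp κ a b) ≠ 0)

theorem hasFun_base : HasFun [] (fun _ : Bool => (0 : K)) (fun _ => 1) LinearMap.id := by
  intro β r a b
  have e : (mon (fun _ : Bool => (0 : K)) β r * kp (fun _ => (1 : K)) a b : K) =
      if ∀ x ∈ r, x = 0 then 1 else 0 := by
    rw [mon_zero]
    simp [kp]
  simp only [LinearMap.id_apply, e, cnt]
  split_ifs <;> simp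

theorem hasFun_step (hq0 : q ≠ 0) (hq : ∀ n : ℕ, 0 < n → q ^ n ≠ 1)
    {R : Type*} [Ring R] [Algebra K R] {g κ : Bool → R} (hsys : IsSys q g κ)
    (As : List (Bool × ℕ)) (a₀ : Bool) (ℓ : ℕ) (Ξ : R →ₗ[K] K) (hΞ : HasFun As g κ Ξ) :
    HasFun ((a₀, ℓ) :: As) (tg g κ) (tk q κ) (Ξ.comp (PhiL K a₀ ℓ)) := by
  -- the functional on combinations
  have key : ∀ (β : Bool) (L : List (List ℕ)) (w : R), Rep K g κ β L w →
      ((L.map (cnt As β)).sum = 0 → Ξ w = 0) ∧ ((L.map (cnt As β)).sum = 1 → Ξ w ≠ 0) := by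
    intro β L w hw
    induction hw with
    | nil => simp
    | cons c hc r L w a b _ ih2 =>
      obtain ⟨ih2a, ih2b⟩ := ih2
      obtain ⟨h1, h2⟩ := hΞ β r a b
      rw [List.map_cons, List.sum_cons, map_add, map_smul]
      constructor
      · intro h
        rw [h1 (by omega), ih2a (by omega), smul_zero, add_zero]
      · intro h
        rcases Nat.eq_zero_or_pos (cnt As β r) with h0 | h0
        · rw [h1 h0, smul_zero, zero_add]
          exact ih2b (by omega)
        · rw [ih2a (by omega), add_zero]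
          exact smul_ne_zero hc (h2 (by omega))
  intro β r a b
  have hrep := Phi_rep hsys hq0 hq r a₀ ℓ β
  obtain ⟨c, hc, e⟩ := tk_kp hsys hq0 a b a₀ ℓ (mon (tg g κ) β r)
  have e' : (Ξ.comp (PhiL K a₀ ℓ))
      (mon (tg g κ) β r * kp (tk q κ) a b) =
      c • Ξ (Phi a₀ ℓ (mon (tg g κ) β r) * kp κ a b) := by
    show Ξ (Phi a₀ ℓ (mon (tg g κ) β r * kp (tk q κ) a b)) = _
    rw [e, map_smul]
  have k := key β _ _ (Rep.right hsys a b hrep)
  rw [e']
  constructor
  · intro h
    rw [k.1 h, smul_zero]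
  · intro h
    exact smul_ne_zero hc (k.2 h)

/-- existence of separating functionals -/
theorem exists_fun (hq0 : q ≠ 0) (hq : ∀ n : ℕ, 0 < n → q ^ n ≠ 1) (As : List (Bool × ℕ)) :
    ∃ (S : GSys K q) (Ξ : S.R →ₗ[K] K), HasFun As S.g S.κ Ξ := by
  induction As with
  | nil => exact ⟨baseSys K q, (LinearMap.id : K →ₗ[K] K), hasFun_base⟩
  | cons A As ih =>
    obtain ⟨a₀, ℓ⟩ := A
    obtain ⟨S, Ξ, hΞ⟩ := ih
    exact ⟨twSys hq0 hq S, (Ξ.comp (PhiL K a₀ ℓ) : Matrix Bool Bool S.R[X] →ₗ[K] K),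
      hasFun_step hq0 hq S.sys As a₀ ℓ Ξ hΞ⟩

/-- separating functionals on `UPos` -/
theorem exists_fun' (hq0 : q ≠ 0) (hq : ∀ n : ℕ, 0 < n → q ^ n ≠ 1) (As : List (Bool × ℕ)) :
    ∃ Ξ : UPos K q →ₗ[K] K,
      (∀ z : UPos K q, (∀ u, u * z = z * u) → Ξ z = Ξ (algebraMap K _ (aug K q z))) ∧
      ∀ (β : Bool) (r : List ℕ),
      (cnt As β r = 0 → Ξ (mon (gen q) β r) = 0) ∧
      (cnt As β r = 1 → Ξ (mon (gen q) β r) ≠ 0) := by
  obtain ⟨S, Ξ, hΞ⟩ := exists_fun hq0 hq As
  refine ⟨Ξ.comp (rho S.g S.sys.serre).toLinearMap, ?_, ?_⟩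
  · intro z hz
    show Ξ (rho S.g S.sys.serre z) = Ξ (rho S.g S.sys.serre (algebraMap K _ (aug K q z)))
    rw [S.good z hz, AlgHom.commutes]
  · intro β r
    have h := hΞ β r 0 0
    have e : rho S.g S.sys.serre (mon (gen q) β r) = mon S.g β r * kp S.κ 0 0 := by
      rw [mon_map]
      simp [kp]
    constructor
    · intro h0
      show Ξ (rho S.g S.sys.serre (mon (gen q) β r)) = 0
      rw [e]
      exact h.1 h0
    · intro h0
      show Ξ (rho S.g S.sys.serre (mon (gen q) β r)) ≠ 0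
      rw [e]
      exact h.2 h0

end Pool.Agent.K9h82.QS
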