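import Pool.Agent.K9h82.QS.Elim

/-! Spanning by valley-free words. -/

namespace Pool.Agent.K9h82.QS

variable {K : Type*} [Field K] {A : Type*} [Ring A] [Algebra K A]

/-- alternating product of powers -/
def mon (g : Bool → A) : Bool → List ℕ → A
  | _, [] => 1
  | β, r :: rs => g β ^ r * mon g (!β) rs

/-- the letter following a list of runs -/
def fl : Bool → List ℕ → Bool
  | β, [] => β
  | β, _ :: rs => fl (!β) rs

theorem mon_append (g : Bool → A) (β : Bool) (r s : List ℕ) :
    mon g β (r ++ s) = mon g β r * mon g (fl β r) s := by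
  induction r generalizing β with
  | nil => simp [mon, fl]
  | cons a r ih => simp [mon, fl, ih, mul_assoc]

/-- all entries positive -/
def Pos (r : List ℕ) : Prop := ∀ a ∈ r, 0 < a

/-- no valley `a ≥ b < c` -/
def NV : List ℕ → Prop
  | a :: b :: c :: t => ¬ (b ≤ a ∧ b < c) ∧ NV (b :: c :: t)
  | _ => True

/-- sum of squares -/
def sq : List ℕ → ℕ
  | [] => 0
  | a :: t => a ^ 2 + sq t

/-- secondary potential -/
def pot : List ℕ → ℕ
  | [] => 0
  | a :: t => a * (t.length + 1) + pot t

theorem exists_valley (r : List ℕ) (h : ¬ NV r) :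
    ∃ pre a b c post, r = pre ++ a :: b :: c :: post ∧ b ≤ a ∧ b < c := by
  induction r with
  | nil => simp [NV] at h
  | cons a r ih =>
    match r, ih, h with
    | [], _, h => simp [NV] at h
    | [b], _, h => simp [NV] at h
    | b :: c :: t, ih, h =>
      by_cases hv : b ≤ a ∧ b < c
      · exact ⟨[], a, b, c, t, rfl, hv.1, hv.2⟩
      · have : ¬ NV (b :: c :: t) := by
          intro h'
          exact h ⟨hv, h'⟩
        obtain ⟨pre, a', b', c', post, e, h1, h2⟩ := ih this
        exact ⟨a :: pre, a', b', c', post, by rw [e]; rfl, h1, h2⟩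

theorem sq_append (r s : List ℕ) : sq (r ++ s) = sq r + sq s := by
  induction r with
  | nil => simp [sq]
  | cons a r ih => simp [sq, ih, add_assoc]

theorem sq_le (r : List ℕ) : sq r ≤ r.sum ^ 2 := by
  induction r with
  | nil => simp [sq]
  | cons a r ih =>
    simp only [sq, List.sum_cons]
    nlinarith [Nat.zero_le (a * r.sum)]

theorem length_le (r : List ℕ) (h : Pos r) : r.length ≤ r.sum := by
  induction r with
  | nil => simp
  | cons a r ih =>
    have h1 := h a (by simp)
    have h2 := ih (fun x hx => h x (by simp [hx]))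
    simp only [List.length_cons, List.sum_cons]
    omega

theorem pot_le (r : List ℕ) : pot r ≤ r.sum * r.length := by
  induction r with
  | nil => simp [pot]
  | cons a r ih =>
    simp only [pot, List.sum_cons, List.length_cons]
    nlinarith [Nat.zero_le (r.sum)]

theorem pot_le' (r : List ℕ) (h : Pos r) : pot r ≤ r.sum ^ 2 := by
  have h1 := pot_le r
  have h2 := length_le r h
  nlinarith [Nat.mul_le_mul_left r.sum h2]

theorem pot_append_lt (pre l l' : List ℕ) (hlen : l.length = l'.length) (h : pot l < pot l') :
    pot (pre ++ l) < pot (pre ++ l') := by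
  induction pre with
  | nil => simpa using h
  | cons a pre ih =>
    simp only [List.cons_append, pot, List.length_append, hlen]
    omega

theorem compress (g : Bool → A) (r : List ℕ) : ∀ β, ∃ β' r', Pos r' ∧ mon g β r = mon g β' r' ∧
    r'.sum = r.sum ∧ sq r ≤ sq r' := by
  induction r with
  | nil => intro β; exact ⟨β, [], by simp [Pos], rfl, rfl, le_refl _⟩
  | cons a r ih =>
    intro β
    obtain ⟨β', r', hpos, hmon, hsum, hsq⟩ := ih (!β)
    rcases Nat.eq_zero_or_pos a with ha | ha
    · subst ha
      refine ⟨β', r', hpos, ?_, ?_, ?_⟩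
      · simp [mon, hmon]
      · simp [hsum]
      · simpa [sq] using hsq
    · by_cases hβ : β' = !β
      · subst hβ
        refine ⟨β, a :: r', ?_, ?_, ?_, ?_⟩
        · intro x hx
          rcases List.mem_cons.mp hx with rfl | hx
          · exact ha
          · exact hpos x hx
        · simp [mon, hmon]
        · simp [hsum]
        · simp only [sq]; omega
      · have hβ' : β' = β := by
          cases β <;> cases β' <;> simp_all
        subst hβ'
        match r', hpos, hmon, hsum, hsq with
        | [], hpos, hmon, hsum, hsq =>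
          refine ⟨β', [a], ?_, ?_, ?_, ?_⟩
          · intro x hx
            have : x = a := by simpa using hx
            omega
          · simp [mon, hmon]
          · simpa using hsum.symm
          · simp only [sq] at hsq ⊢; omega
        | c :: t, hpos, hmon, hsum, hsq =>
          refine ⟨β', (a + c) :: t, ?_, ?_, ?_, ?_⟩
          · intro x hx
            rcases List.mem_cons.mp hx with rfl | hx
            · omega
            · exact hpos x (by simp [hx])
          · rw [mon, hmon, mon, mon, pow_add, mul_assoc]
          · simp only [List.sum_cons] at hsum ⊢; omega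
          · simp only [sq] at hsq ⊢; nlinarith [Nat.zero_le (a * c)]

/-- replacement of a valley -/
theorem valley_mem (q : K) (hq : ∀ n : ℕ, 0 < n → q ^ n ≠ 1) (hq0 : q ≠ 0) (g : Bool → A)
    (hs : ∀ β, serre q (g β) (g (!β)) = 0) (β : Bool) (pre post : List ℕ) (a b c : ℕ)
    (hab : b ≤ a) (hbc : b < c) :
    mon g β (pre ++ a :: b :: c :: post) ∈ Submodule.span K
      {w : A | ∃ i j, i + j = a + c ∧ (i < b ∨ j ≤ b) ∧
        w = mon g β (pre ++ i :: b :: j :: post)} := by
  set γ := fl β pre with hγ
  have hform : ∀ i j, mon g β (pre ++ i :: b :: j :: post) =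
      mon g β pre * (g γ ^ i * g (!γ) ^ b * g γ ^ j) * mon g (!γ) post := by
    intro i j
    rw [mon_append, ← hγ]
    simp [mon, mul_assoc]
  have h1 := elim_mem q hq hq0 (g γ) (g (!γ) ^ b) (((q⁻¹) ^ 2) ^ b)
    (pow_ne_zero _ (pow_ne_zero _ (inv_ne_zero hq0))) b
    (D_pow_zero q hq0 (g γ) (g (!γ)) (hs γ) b _ (by omega)) (a + c) a (by omega) (by omega)
  rw [Nat.add_sub_cancel_left] at h1
  rw [hform]
  generalize g γ ^ a * g (!γ) ^ b * g γ ^ c = w at h1
  induction h1 using Submodule.span_induction with
  | mem w hw =>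
    obtain ⟨i, hi, hib, rfl⟩ := hw
    refine Submodule.subset_span ⟨i, a + c - i, by omega, hib, ?_⟩
    rw [hform]
  | zero => simp
  | add x y _ _ hx hy =>
    rw [mul_add, add_mul]
    exact Submodule.add_mem _ hx hy
  | smul t x _ hx =>
    rw [mul_smul_comm, smul_mul_assoc]
    exact Submodule.smul_mem _ _ hx

theorem two_sq (i j a c : ℕ) (hij : i + j = a + c) (h1 : i < a) (h2 : i < c) :
    a ^ 2 + c ^ 2 < i ^ 2 + j ^ 2 := by
  obtain ⟨u, rfl⟩ := Nat.exists_eq_add_of_lt h1
  obtain ⟨v, rfl⟩ := Nat.exists_eq_add_of_lt h2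
  have : j = i + u + 1 + v + 1 := by omega
  subst this
  nlinarith [Nat.zero_le (u * v), Nat.zero_le u, Nat.zero_le v]

theorem span_NV_aux (q : K) (hq : ∀ n : ℕ, 0 < n → q ^ n ≠ 1) (hq0 : q ≠ 0) (g : Bool → A)
    (hs : ∀ β, serre q (g β) (g (!β)) = 0) (S : ℕ) (n : ℕ) :
    ∀ (β : Bool) (r : List ℕ), Pos r → r.sum = S →
      (S ^ 2 + 1) * S ^ 2 + S ^ 2 + 1 ≤ (S ^ 2 + 1) * sq r + pot r + n →
      mon g β r ∈ Submodule.span K {w : A | ∃ β' r', Pos r' ∧ NV r' ∧ w = mon g β' r'} := by
  induction n with
  | zero =>
    intro β r hpos hsum hle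
    exfalso
    have h1 := sq_le r
    have h2 := pot_le' r hpos
    rw [hsum] at h1 h2
    have h3 := Nat.mul_le_mul_left (S ^ 2 + 1) h1
    omega
  | succ n ih =>
    intro β r hpos hsum hle
    by_cases hNV : NV r
    · exact Submodule.subset_span ⟨β, r, hpos, hNV, rfl⟩
    obtain ⟨pre, a, b, c, post, rfl, hab, hbc⟩ := exists_valley r hNV
    have hb : 0 < b := hpos b (by simp)
    have hc : 0 < c := hpos c (by simp)
    have ha : 0 < a := hpos a (by simp)
    refine Submodule.span_le.mpr ?_ (valley_mem q hq hq0 g hs β pre post a b c hab hbc)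
    rintro w ⟨i, j, hij, hcase, rfl⟩
    by_cases hswap : j = a ∧ i = c
    · obtain ⟨rfl, rfl⟩ := hswap
      apply ih
      · intro x hx
        apply hpos x
        simp only [List.mem_append, List.mem_cons] at hx ⊢
        tauto
      · rw [← hsum]
        simp only [List.sum_append, List.sum_cons]
        omega
      · have e1 : sq (pre ++ i :: b :: j :: post) = sq (pre ++ j :: b :: i :: post) := by
          simp only [sq_append, sq]
          omega
        have hlt : j < i := by omega
        have e2 : pot (pre ++ j :: b :: i :: post) < pot (pre ++ i :: b :: j :: post) := by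
          apply pot_append_lt
          · simp
          · simp only [pot, List.length_cons]
            nlinarith
        rw [e1]
        omega
    · obtain ⟨β', r', hpos', hmon', hsum', hsq'⟩ := compress g (pre ++ i :: b :: j :: post) β
      rw [hmon']
      have hgt : a ^ 2 + c ^ 2 < i ^ 2 + j ^ 2 := by
        rcases hcase with h | h
        · exact two_sq i j a c hij (by omega) (by omega)
        · have := two_sq j i a c (by omega) (by omega) (by omega)
          omega
      have hsum2 : r'.sum = S := by
        rw [hsum', ← hsum]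
        simp only [List.sum_append, List.sum_cons]
        omega
      apply ih _ _ hpos' hsum2
      have h1 : sq (pre ++ a :: b :: c :: post) + 1 ≤ sq r' := by
        refine le_trans ?_ hsq'
        simp only [sq_append, sq]
        omega
      have h2 := pot_le' _ hpos
      rw [hsum] at h2
      have h3 := Nat.mul_le_mul_left (S ^ 2 + 1) h1
      rw [mul_add] at h3
      omega

/-- every alternating monomial is in the span of the valley-free ones -/
theorem span_NV (q : K) (hq : ∀ n : ℕ, 0 < n → q ^ n ≠ 1) (hq0 : q ≠ 0) (g : Bool → A)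
    (hs : ∀ β, serre q (g β) (g (!β)) = 0) (β : Bool) (r : List ℕ) :
    mon g β r ∈ Submodule.span K {w : A | ∃ β' r', Pos r' ∧ NV r' ∧ w = mon g β' r'} := by
  obtain ⟨β', r', hpos', hmon', hsum', hsq'⟩ := compress g r β
  rw [hmon']
  exact span_NV_aux q hq hq0 g hs r'.sum _ β' r' hpos' rfl (Nat.le_add_left _ _)

end Pool.Agent.K9h82.QS
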