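import Pool.Agent.K9h82.QS.Central
import Pool.Agent.K9h82.QS.Span

/-! Functionals extracting alternating chains. -/

set_option linter.all false

namespace Pool.Agent.K9h82.QS

universe u

open Polynomial

section comb

/-- all ways of lowering by one an alternating selection of `ℓ` runs, the first of letter `a` -/
def lower : Bool → ℕ → Bool → List ℕ → List (List ℕ)
  | _, ℓ, _, [] => if ℓ = 0 then [[]] else []
  | a, ℓ, β, r :: rs => (lower a ℓ (!β) rs).map (List.cons r) ++
      (if β = a ∧ 0 < ℓ ∧ 0 < r then (lower (!a) (ℓ - 1) (!β) rs).map (List.cons (r - 1)) else [])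

/-- number of chains -/
def cnt : List (Bool × ℕ) → Bool → List ℕ → ℕ
  | [], _, r => if ∀ x ∈ r, x = 0 then 1 else 0
  | (a, ℓ) :: As, β, r => ((lower a ℓ β r).map (cnt As β)).sum

end comb

section
variable {K : Type u} [Field K] {q : K} {R : Type*} [Ring R] [Algebra K R]

/-- products of grading elements -/
def kp (κ : Bool → R) (a b : ℕ) : R := κ true ^ a * κ false ^ b

theorem kp_comm {g κ : Bool → R} (h : IsSys q g κ) : κ false * κ true = κ true * κ false := by
  have i1 : κ true * κ false = 1 := h.inv true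
  have i2 : κ false * κ true = 1 := h.inv false
  rw [i1, i2]

theorem κ_kp {g κ : Bool → R} (h : IsSys q g κ) (γ : Bool) (a b : ℕ) :
    ∃ a' b', κ γ * kp κ a b = kp κ a' b' := by
  cases γ
  · refine ⟨a, b + 1, ?_⟩
    have hc : Commute (κ false) (κ true ^ a) := Commute.pow_right (kp_comm h) a
    unfold kp
    rw [← mul_assoc, hc.eq, mul_assoc, ← pow_succ']
  · refine ⟨a + 1, b, ?_⟩
    unfold kp
    rw [← mul_assoc, ← pow_succ']

theorem kp_kp {g κ : Bool → R} (h : IsSys q g κ) (a b c d : ℕ) :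
    kp κ a b * kp κ c d = kp κ (a + c) (b + d) := by
  have hc : Commute (κ false ^ b) (κ true ^ c) :=
    Commute.pow_pow (kp_comm h) b c
  unfold kp
  rw [pow_add, pow_add, mul_assoc, ← mul_assoc (κ false ^ b), hc.eq]
  simp only [mul_assoc]

theorem κ_pow {g κ : Bool → R} (h : IsSys q g κ) (hq0 : q ≠ 0) (γ β : Bool) :
    ∃ c : K, c ≠ 0 ∧ κ γ * g β = c • (g β * κ γ) := by
  by_cases hβ : β = γ
  · subst hβ
    exact ⟨q ^ 2, pow_ne_zero _ hq0, h.same β⟩
  · have : β = !γ := by cases β <;> cases γ <;> simp_all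
    subst this
    exact ⟨(q⁻¹) ^ 2, pow_ne_zero _ (inv_ne_zero hq0), h.diff γ⟩

theorem κ_pow' {g κ : Bool → R} (h : IsSys q g κ) (hq0 : q ≠ 0) (γ β : Bool) (n : ℕ) :
    ∃ c : K, c ≠ 0 ∧ κ γ * g β ^ n = c • (g β ^ n * κ γ) := by
  obtain ⟨c, hc, e⟩ := κ_pow h hq0 γ β
  refine ⟨c ^ n, pow_ne_zero _ hc, ?_⟩
  induction n with
  | zero => simp
  | succ n ih =>
    rw [pow_succ (g β), ← mul_assoc, ih, smul_mul_assoc, mul_assoc, e, mul_smul_comm, smul_smul,
      mul_assoc, pow_succ c]

theorem κ_mon {g κ : Bool → R} (h : IsSys q g κ) (hq0 : q ≠ 0) (γ : Bool) (r : List ℕ) :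
    ∀ β, ∃ c : K, c ≠ 0 ∧ κ γ * mon g β r = c • (mon g β r * κ γ) := by
  induction r with
  | nil => intro β; exact ⟨1, one_ne_zero, by simp [mon]⟩
  | cons n r ih =>
    intro β
    obtain ⟨c, hc, e⟩ := κ_pow' h hq0 γ β n
    obtain ⟨c', hc', e'⟩ := ih (!β)
    refine ⟨c * c', mul_ne_zero hc hc', ?_⟩
    simp only [mon]
    rw [← mul_assoc, e, smul_mul_assoc, mul_assoc, e', mul_smul_comm, smul_smul, mul_assoc]

/-- `u` is a combination with nonzero coefficients of the monomials listed in `L`, up to grading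
elements -/
inductive Rep (K : Type u) [Field K] {R : Type*} [Ring R] [Algebra K R] (g κ : Bool → R)
    (β : Bool) : List (List ℕ) → R → Prop
  | nil : Rep K g κ β [] 0
  | cons (c : K) (hc : c ≠ 0) (r : List ℕ) (L : List (List ℕ)) (w : R) (a b : ℕ)
      (h : Rep K g κ β L w) : Rep K g κ β (r :: L) (c • (mon g β r * kp κ a b) + w)

theorem Rep.append {g κ : Bool → R} {β : Bool} {L L' : List (List ℕ)} {w w' : R}
    (h : Rep K g κ β L w) (h' : Rep K g κ β L' w') : Rep K g κ β (L ++ L') (w + w') := by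
  induction h with
  | nil => simpa using h'
  | cons c hc r L w a b _ ih =>
    rw [List.cons_append, add_assoc]
    exact Rep.cons c hc r _ _ a b ih

theorem Rep.map {g κ : Bool → R} {β : Bool} {L : List (List ℕ)} {w : R} (n : ℕ)
    (h : Rep K g κ (!β) L w) : Rep K g κ β (L.map (List.cons n)) (g β ^ n * w) := by
  induction h with
  | nil =>
    rw [mul_zero]
    exact Rep.nil
  | cons c hc r L w a b _ ih =>
    rw [List.map_cons, mul_add]
    have e : g β ^ n * (c • (mon g (!β) r * kp κ a b)) = c • (mon g β (n :: r) * kp κ a b) := by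
      rw [mul_smul_comm, mon, mul_assoc]
    rw [e]
    exact Rep.cons c hc _ _ _ a b ih

theorem Rep.smul {g κ : Bool → R} {β : Bool} {L : List (List ℕ)} {w : R} (t : K) (ht : t ≠ 0)
    (h : Rep K g κ β L w) : Rep K g κ β L (t • w) := by
  induction h with
  | nil =>
    rw [smul_zero]
    exact Rep.nil
  | cons c hc r L w a b _ ih =>
    rw [smul_add, smul_smul]
    exact Rep.cons (t * c) (mul_ne_zero ht hc) _ _ _ a b ih

theorem Rep.kappa {g κ : Bool → R} (hs : IsSys q g κ) (hq0 : q ≠ 0) {β : Bool}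
    {L : List (List ℕ)} {w : R} (γ : Bool)
    (h : Rep K g κ β L w) : Rep K g κ β L (κ γ * w) := by
  induction h with
  | nil =>
    rw [mul_zero]
    exact Rep.nil
  | cons c hc r L w a b _ ih =>
    obtain ⟨c', hc', e⟩ := κ_mon hs hq0 γ r β
    obtain ⟨a', b', e'⟩ := κ_kp hs γ a b
    have e2 : κ γ * (c • (mon g β r * kp κ a b) + w)
        = (c * c') • (mon g β r * kp κ a' b') + κ γ * w := by
      rw [mul_add, mul_smul_comm, ← mul_assoc, e, smul_mul_assoc, smul_smul, mul_assoc, e']
    rw [e2]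
    exact Rep.cons _ (mul_ne_zero hc hc') _ _ _ a' b' ih

theorem Rep.right {g κ : Bool → R} (hs : IsSys q g κ) {β : Bool}
    {L : List (List ℕ)} {w : R} (a' b' : ℕ)
    (h : Rep K g κ β L w) : Rep K g κ β L (w * kp κ a' b') := by
  induction h with
  | nil =>
    rw [zero_mul]
    exact Rep.nil
  | cons c hc r L w a b _ ih =>
    rw [add_mul, smul_mul_assoc, mul_assoc, kp_kp hs]
    exact Rep.cons _ hc _ _ _ _ _ ih

/-- q-integers -/
def qn (q : K) : ℕ → K
  | 0 => 0
  | n + 1 => 1 + q ^ 2 * qn q n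

theorem qn_ne_zero (hq : ∀ n : ℕ, 0 < n → q ^ n ≠ 1) (n : ℕ) (hn : 0 < n) : qn q n ≠ 0 := by
  have key : ∀ n, qn q n * (q ^ 2 - 1) = q ^ (2 * n) - 1 := by
    intro n
    induction n with
    | zero => simp [qn]
    | succ n ih =>
      have : qn q (n + 1) * (q ^ 2 - 1) = (q ^ 2 - 1) + q ^ 2 * (qn q n * (q ^ 2 - 1)) := by
        simp only [qn]; ring
      rw [this, ih]
      ring
  intro h0
  have := key n
  rw [h0, zero_mul] at this
  apply hq (2 * n) (by omega)
  linear_combination -this

theorem twg_pow {g κ : Bool → R} (h : IsSys q g κ) (s : R)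
    (hs : ∀ r, r * s = s * r) (β : Bool) (n : ℕ) (c d : Bool) :
    (twg s g κ β ^ n) c d = if c = d then g β ^ n else if c = β then
      qn q n • (s * (g β ^ (n - 1) * κ β)) else 0 := by
  induction n generalizing c d with
  | zero => by_cases hcd : c = d <;> simp [hcd, qn]
  | succ n ih =>
    rw [pow_succ, mul_twg_apply, ih, ih]
    have n1 : (β = !β) = False := by cases β <;> simp
    by_cases hcd : c = d
    · subst hcd
      by_cases hcβ : c = !β
      · have : ¬ (c = β) := by rw [hcβ]; cases β <;> simp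
        simp [hcβ, pow_succ]
      · simp [hcβ, pow_succ]
    · by_cases hcβ : c = β
      · subst hcβ
        have hd : d = !c := by cases c <;> cases d <;> simp_all
        subst hd
        have s1 : κ c * g c = q ^ 2 • (g c * κ c) := h.same c
        simp only [n1, if_false, if_true, qn]
        cases n with
        | zero => simp [qn]
        | succ n =>
          simp only [Nat.add_sub_cancel]
          rw [smul_mul_assoc, mul_assoc, mul_assoc, s1, mul_smul_comm, mul_smul_comm, smul_smul,
            ← mul_assoc (g c ^ n), ← pow_succ, ← mul_assoc (g c ^ (n + 1)) s, hs, mul_assoc,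
            add_smul, one_smul, add_comm]
          congr 2
          ring
      · have hd : d = β := by cases β <;> cases c <;> cases d <;> simp_all
        subst hd
        have n2 : (d = !d) = False := by cases d <;> simp
        simp [hcd, n2]

/-- the column reached after `ℓ` transitions -/
def col : Bool → ℕ → Bool
  | a, 0 => a
  | a, ℓ + 1 => col (!a) ℓ

/-- extraction -/
noncomputable def Phi (a : Bool) (ℓ : ℕ) (M : Matrix Bool Bool R[X]) : R :=
  (M a (col a ℓ)).coeff ℓ

theorem Phi_mul {g κ : Bool → R} (h : IsSys q g κ) (β : Bool) (n : ℕ) (a : Bool) (ℓ : ℕ)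
    (M : Matrix Bool Bool R[X]) :
    Phi a ℓ (tg g κ β ^ n * M) = g β ^ n * Phi a ℓ M +
      (if β = a ∧ 0 < ℓ then qn q n • (g β ^ (n - 1) * (κ β * Phi (!a) (ℓ - 1) M)) else 0) := by
  have hC : IsSys q (fun β => (C (g β) : R[X])) (fun β => C (κ β)) := h.map (Cal K R)
  have hent : ∀ c, (tg g κ β ^ n * M) a c = C (g β ^ n) * M a c +
      (if a = β then qn q n • (X * (C (g β ^ (n - 1) * κ β) * M (!β) c)) else 0) := by
    intro c
    have hp := twg_pow hC (X : R[X]) X_central β n
    unfold tg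
    cases β <;> cases a <;>
      simp [Matrix.mul_apply, hp, add_comm, mul_assoc, smul_mul_assoc]
  unfold Phi
  rw [hent, coeff_add, coeff_C_mul]
  congr 1
  by_cases hβ : β = a
  · subst hβ
    cases ℓ with
    | zero => simp
    | succ ℓ =>
      simp only [if_true, coeff_smul, coeff_X_mul, coeff_C_mul, true_and, Nat.zero_lt_succ,
        Nat.add_sub_cancel, col, mul_assoc]
  · have : ¬ (a = β) := fun e => hβ e.symm
    simp [hβ, this]

theorem Phi_one (a : Bool) (ℓ : ℕ) : Phi a ℓ (1 : Matrix Bool Bool R[X]) = if ℓ = 0 then 1 else 0 := by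
  unfold Phi
  cases ℓ with
  | zero =>
    show ((1 : Matrix Bool Bool R[X]) a a).coeff 0 = _
    rw [Matrix.one_apply_eq]
    simp
  | succ ℓ =>
    rw [Matrix.one_apply, if_neg (Nat.succ_ne_zero ℓ)]
    split_ifs with h1
    · rw [coeff_one, if_neg (Nat.succ_ne_zero ℓ)]
    · exact coeff_zero _

theorem Phi_rep {g κ : Bool → R} (h : IsSys q g κ) (hq0 : q ≠ 0)
    (hq : ∀ n : ℕ, 0 < n → q ^ n ≠ 1) (r : List ℕ) :
    ∀ (a : Bool) (ℓ : ℕ) (β : Bool), Rep K g κ β (lower a ℓ β r) (Phi a ℓ (mon (tg g κ) β r)) := by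
  induction r with
  | nil =>
    intro a ℓ β
    simp only [mon, Phi_one, lower]
    split_ifs with h1
    · have := Rep.cons (K := K) (g := g) (κ := κ) (β := β) (1 : K) one_ne_zero [] [] 0 0 0 Rep.nil
      simpa [mon, kp] using this
    · exact Rep.nil
  | cons n r ih =>
    intro a ℓ β
    simp only [mon, lower]
    rw [Phi_mul h]
    refine Rep.append ((ih a ℓ (!β)).map n) ?_
    by_cases hcond : β = a ∧ 0 < ℓ
    · by_cases hn : 0 < n
      · rw [if_pos hcond, if_pos ⟨hcond.1, hcond.2, hn⟩]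
        exact Rep.smul _ (qn_ne_zero hq n hn)
          (Rep.map (n - 1) (Rep.kappa h hq0 β (ih (!a) (ℓ - 1) (!β))))
      · have hn0 : n = 0 := by omega
        subst hn0
        rw [if_pos hcond, if_neg (fun h' => hn h'.2.2)]
        simp only [qn, zero_smul]
        exact Rep.nil
    · rw [if_neg hcond, if_neg (fun h' => hcond ⟨h'.1, h'.2.1⟩)]
      exact Rep.nil

end

end Pool.Agent.K9h82.QS
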