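import Mathlib

/-! Higher order q-Serre relations for `a_ij = -2`, and the elimination lemma. -/

namespace Pool.Agent.K9h82.QS

variable {K : Type*} [Field K] {A : Type*} [Ring A] [Algebra K A]

/-- `three q = q^2 + 1 + q^{-2}`. -/
def three (q : K) : K := q ^ 2 + 1 + (q⁻¹) ^ 2

/-- the cubic q-Serre expression `a^3 b - [3] a^2 b a + [3] a b a^2 - b a^3`. -/
def serre (q : K) (a b : A) : A :=
  a ^ 3 * b - three q • (a ^ 2 * b * a) + three q • (a * b * a ^ 2) - b * a ^ 3

/-- `D q g c u m = ∏_{k<m} (L_g - c q^{2k} R_g) u`. -/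
def D (q : K) (g : A) (c : K) (u : A) : ℕ → A
  | 0 => u
  | m + 1 => g * D q g c u m - (c * q ^ (2 * m)) • (D q g c u m * g)

theorem D_zero_of_le (q : K) (g : A) (c : K) (u : A) (m : ℕ) (h : D q g c u m = 0) :
    ∀ n, m ≤ n → D q g c u n = 0 := by
  intro n hn
  induction n, hn using Nat.le_induction with
  | base => exact h
  | succ n hn ih => simp [D, ih]

theorem D_mul_step (q : K) (g : A) (c c' : K) (u v : A) (i j : ℕ) :
    g * (D q g c u i * D q g c' v j)
      - (c * c' * q ^ (2 * (i + j))) • (D q g c u i * D q g c' v j * g)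
      = D q g c u (i + 1) * D q g c' v j
        + (c * q ^ (2 * i)) • (D q g c u i * D q g c' v (j + 1)) := by
  simp only [D]
  have e : c * c' * q ^ (2 * (i + j)) = (c * q ^ (2 * i)) * (c' * q ^ (2 * j)) := by ring
  rw [e]
  simp only [sub_mul, mul_sub, smul_sub, smul_mul_assoc, mul_smul_comm, smul_smul, mul_assoc]
  abel

theorem D_mul_mem (q : K) (g : A) (c c' : K) (u v : A) (m : ℕ) :
    D q g (c * c') (u * v) m ∈
      Submodule.span K {w : A | ∃ i j, i + j = m ∧ w = D q g c u i * D q g c' v j} := by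
  induction m with
  | zero =>
    refine Submodule.subset_span ⟨0, 0, rfl, ?_⟩
    simp [D]
  | succ m ih =>
    have key : ∀ w ∈ Submodule.span K
        {w : A | ∃ i j, i + j = m ∧ w = D q g c u i * D q g c' v j},
        g * w - (c * c' * q ^ (2 * m)) • (w * g) ∈ Submodule.span K
        {w : A | ∃ i j, i + j = m + 1 ∧ w = D q g c u i * D q g c' v j} := by
      intro w hw
      induction hw using Submodule.span_induction with
      | mem w hw =>
        obtain ⟨i, j, hij, rfl⟩ := hw
        subst hij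
        rw [D_mul_step]
        refine Submodule.add_mem _ (Submodule.subset_span ⟨i + 1, j, by omega, rfl⟩)
          (Submodule.smul_mem _ _ (Submodule.subset_span ⟨i, j + 1, by omega, rfl⟩))
      | zero => simp
      | add x y _ _ hx hy =>
        have := Submodule.add_mem _ hx hy
        refine (congrArg (· ∈ _) ?_).mp this
        simp only [mul_add, add_mul, smul_add]
        abel
      | smul a x _ hx =>
        have := Submodule.smul_mem _ a hx
        refine (congrArg (· ∈ _) ?_).mp this
        simp only [smul_sub, mul_smul_comm, smul_mul_assoc, smul_smul]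
        rw [mul_comm a]
    exact key _ ih

theorem D_mul_zero (q : K) (g : A) (c c' : K) (u v : A) (a b : ℕ)
    (hu : ∀ i, a < i → D q g c u i = 0) (hv : ∀ j, b < j → D q g c' v j = 0) :
    ∀ m, a + b < m → D q g (c * c') (u * v) m = 0 := by
  intro m hm
  have h := D_mul_mem q g c c' u v m
  have h0 : Submodule.span K {w : A | ∃ i j, i + j = m ∧ w = D q g c u i * D q g c' v j} ≤ ⊥ := by
    rw [Submodule.span_le]
    rintro w ⟨i, j, hij, rfl⟩
    rcases Nat.lt_or_ge a i with h1 | h1
    · simp [hu i h1]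
    · have : b < j := by omega
      simp [hv j this]
  simpa using h0 h

theorem D_three (q : K) (hq : q ≠ 0) (g h : A) :
    D q g ((q⁻¹) ^ 2) h 3 = serre q g h := by
  have e1 : (q⁻¹) ^ 2 * q ^ 2 = 1 := by field_simp
  have e2 : (q⁻¹) ^ 2 * q ^ (2 * 2) = q ^ 2 := by field_simp
  have e3 : (q⁻¹) ^ 2 * q ^ (2 * 0) = (q⁻¹) ^ 2 := by simp
  have e4 : q ^ 2 * (q⁻¹) ^ 2 = 1 := by field_simp
  simp only [D, serre, three]
  rw [e2, e3]
  norm_num only
  rw [e1]
  simp only [sub_mul, mul_sub, smul_sub, smul_mul_assoc, mul_smul_comm, smul_smul, mul_assoc,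
    one_smul, pow_succ, pow_zero, one_mul]
  have e4' : q * q * (q⁻¹ * q⁻¹) = 1 := by field_simp
  simp only [← mul_assoc, add_smul, one_smul] at *
  rw [e4']
  simp only [one_smul]
  abel

theorem D_pow_zero (q : K) (hq : q ≠ 0) (g h : A) (hs : serre q g h = 0) (n : ℕ) :
    ∀ m, 2 * n < m → D q g (((q⁻¹) ^ 2) ^ n) (h ^ n) m = 0 := by
  induction n with
  | zero =>
    intro m hm
    refine D_zero_of_le q g _ _ 1 ?_ m (by omega)
    simp [D]
  | succ n ih =>
    have h2 : ∀ m, 2 < m → D q g ((q⁻¹) ^ 2) h m = 0 := by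
      intro m hm
      refine D_zero_of_le q g _ _ 3 ?_ m hm
      rw [D_three q hq, hs]
    intro m hm
    rw [pow_succ, pow_succ h]
    exact D_mul_zero q g _ _ _ _ (2 * n) 2 ih h2 m (by omega)

end Pool.Agent.K9h82.QS
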