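import Pool.Agent.K9h82.QS.Serre

/-! The algebra and systems of matrices. -/

namespace Pool.Agent.K9h82.QS

universe u

/-- The two cubic q-Serre relations on the free algebra with generators indexed by `Bool`. -/
inductive Rel (K : Type u) [Field K] (q : K) : FreeAlgebra K Bool → FreeAlgebra K Bool → Prop
  | mk (β : Bool) : Rel K q (serre q (FreeAlgebra.ι K β) (FreeAlgebra.ι K (!β))) 0

/-- The algebra presented by two generators and the two cubic q-Serre relations. -/
abbrev UPos (K : Type u) [Field K] (q : K) : Type u := RingQuot (Rel K q)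

section
variable {K : Type u} [Field K] {q : K}

/-- the generators -/
noncomputable def gen (q : K) (β : Bool) : UPos K q :=
  RingQuot.mkAlgHom K (Rel K q) (FreeAlgebra.ι K β)

theorem map_serre {A B : Type*} [Ring A] [Algebra K A] [Ring B] [Algebra K B] (f : A →ₐ[K] B)
    (a b : A) : f (serre q a b) = serre q (f a) (f b) := by
  simp [serre]

theorem gen_serre (q : K) (β : Bool) : serre q (gen q β) (gen q (!β)) = 0 := by
  unfold gen
  rw [← map_serre]
  have := RingQuot.mkAlgHom_rel K (Rel.mk (K := K) (q := q) β)
  rw [this, map_zero]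

/-- a system: a pair satisfying the q-Serre relations with a grading element. -/
structure IsSys (q : K) {R : Type*} [Ring R] [Algebra K R] (g κ : Bool → R) : Prop where
  inv : ∀ β, κ β * κ (!β) = 1
  same : ∀ β, κ β * g β = q ^ 2 • (g β * κ β)
  diff : ∀ β, κ β * g (!β) = (q⁻¹) ^ 2 • (g (!β) * κ β)
  serre : ∀ β, serre q (g β) (g (!β)) = 0

/-- the homomorphism attached to a pair satisfying the q-Serre relations -/
noncomputable def rho {R : Type*} [Ring R] [Algebra K R] (g : Bool → R)
    (h : ∀ β, serre q (g β) (g (!β)) = 0) : UPos K q →ₐ[K] R :=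
  RingQuot.liftAlgHom K ⟨FreeAlgebra.lift K g, by
    rintro _ _ ⟨β⟩
    rw [map_serre, map_zero]
    simpa using h β⟩

@[simp] theorem rho_gen {R : Type*} [Ring R] [Algebra K R] (g : Bool → R)
    (h : ∀ β, serre q (g β) (g (!β)) = 0) (β : Bool) : rho g h (gen q β) = g β := by
  unfold rho gen
  rw [RingQuot.liftAlgHom_mkAlgHom_apply]
  simp

theorem hom_ext {R : Type*} [Ring R] [Algebra K R] (f f' : UPos K q →ₐ[K] R)
    (h : ∀ β, f (gen q β) = f' (gen q β)) : f = f' := by
  apply RingQuot.ringQuot_ext'
  apply FreeAlgebra.hom_ext
  funext β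
  exact h β

/-- induction: a submodule containing 1 and stable under left multiplication by the generators
is everything -/
theorem eq_top_of_left (W : Submodule K (UPos K q)) (h1 : (1 : UPos K q) ∈ W)
    (h : ∀ β, ∀ w ∈ W, gen q β * w ∈ W) : W = ⊤ := by
  -- the subalgebra of elements `u` with `u * W ⊆ W`
  let S : Subalgebra K (UPos K q) :=
    { carrier := {u | ∀ w ∈ W, u * w ∈ W}
      mul_mem' := by
        intro a b ha hb w hw
        rw [mul_assoc]
        exact ha _ (hb _ hw)
      add_mem' := by
        intro a b ha hb w hw
        rw [add_mul]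
        exact W.add_mem (ha _ hw) (hb _ hw)
      algebraMap_mem' := by
        intro r w hw
        rw [Algebra.algebraMap_eq_smul_one, smul_mul_assoc, one_mul]
        exact W.smul_mem _ hw }
  have hS : ∀ u : UPos K q, u ∈ S := by
    -- retract: the inclusion composed with the lift
    let f : UPos K q →ₐ[K] S := rho (q := q) (fun β => (⟨gen q β, fun w hw => h β w hw⟩ : S)) (by
      intro β
      apply Subtype.ext
      have := map_serre (q := q) S.val (⟨gen q β, fun w hw => h β w hw⟩ : S)
        ⟨gen q (!β), fun w hw => h (!β) w hw⟩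
      simp only [Subalgebra.coe_val] at this
      rw [this]
      exact gen_serre q β)
    have hf : S.val.comp f = AlgHom.id K _ := by
      apply hom_ext
      intro β
      simp [f]
    intro u
    have : S.val (f u) = u := by
      have := congrArg (fun φ : UPos K q →ₐ[K] UPos K q => φ u) hf
      simpa using this
    rw [← this]
    exact (f u).2
  rw [eq_top_iff]
  intro u _
  have := hS u 1 h1
  simpa using this

/-- intertwiners -/
theorem intertwine {R : Type*} [Ring R] [Algebra K R] (f f' : UPos K q →ₐ[K] R) (ι : R)
    (h : ∀ β, f (gen q β) * ι = ι * f' (gen q β)) (u : UPos K q) : f u * ι = ι * f' u := by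
  have key : (⊤ : Submodule K (UPos K q)) = ⊤ := rfl
  let W : Submodule K (UPos K q) :=
    { carrier := {u | f u * ι = ι * f' u}
      add_mem' := by
        intro a b ha hb
        simp only [Set.mem_ofPred_eq, map_add, add_mul, mul_add] at *
        rw [ha, hb]
      zero_mem' := by simp
      smul_mem' := by
        intro c a ha
        simp only [Set.mem_ofPred_eq, map_smul, smul_mul_assoc, mul_smul_comm] at *
        rw [ha] }
  have hW : W = ⊤ := by
    apply eq_top_of_left
    · show f 1 * ι = ι * f' 1
      simp
    · intro β w hw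
      show f (gen q β * w) * ι = ι * f' (gen q β * w)
      have hw' : f w * ι = ι * f' w := hw
      rw [map_mul, mul_assoc, hw', ← mul_assoc, h, map_mul, mul_assoc]
  have : u ∈ W := by rw [hW]; trivial
  exact this

end

section tw
variable {K : Type u} [Field K] {q : K} {R : Type*} [Ring R] [Algebra K R]

/-- twisted generators: `g β` on the diagonal and `s κ β` at the place `(β, !β)`. -/
def twg (s : R) (g κ : Bool → R) (β : Bool) : Matrix Bool Bool R :=
  fun c d => if c = d then g β else if c = β then s * κ β else 0

/-- twisted grading element -/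
def twk (q : K) (κ : Bool → R) (β : Bool) : Matrix Bool Bool R :=
  fun c d => if c = d then (if c = β then q else q⁻¹) • κ β else 0

theorem inv_cancel {g κ : Bool → R} (h : IsSys q g κ) (β : Bool) (w : R) :
    κ β * (κ (!β) * w) = w := by
  rw [← mul_assoc, h.inv, one_mul]

end tw

end Pool.Agent.K9h82.QS
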