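import Pool.Agent.K9h82.QS.Sys

/-! The twisting construction. -/

set_option linter.all false

namespace Pool.Agent.K9h82.QS

universe u
section tw
variable {K : Type u} [Field K] {q : K} {R : Type*} [Ring R] [Algebra K R]

theorem isSys_twg (hq0 : q ≠ 0) {g κ : Bool → R} (h : IsSys q g κ) (s : R)
    (hs : ∀ r, r * s = s * r) : IsSys q (twg s g κ) (twk q κ) := by
  have i1 : κ true * κ false = 1 := h.inv true
  have i2 : κ false * κ true = 1 := h.inv false
  have i1' : ∀ w, κ true * (κ false * w) = w := fun w => by rw [← mul_assoc, i1, one_mul]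
  have i2' : ∀ w, κ false * (κ true * w) = w := fun w => by rw [← mul_assoc, i2, one_mul]
  have s1 : κ true * g true = q ^ 2 • (g true * κ true) := h.same true
  have s2 : κ false * g false = q ^ 2 • (g false * κ false) := h.same false
  have s1' : ∀ w, κ true * (g true * w) = q ^ 2 • (g true * (κ true * w)) := fun w => by
    rw [← mul_assoc, s1, smul_mul_assoc, mul_assoc]
  have s2' : ∀ w, κ false * (g false * w) = q ^ 2 • (g false * (κ false * w)) := fun w => by
    rw [← mul_assoc, s2, smul_mul_assoc, mul_assoc]
  have d1 : κ true * g false = (q⁻¹) ^ 2 • (g false * κ true) := h.diff true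
  have d2 : κ false * g true = (q⁻¹) ^ 2 • (g true * κ false) := h.diff false
  have d1' : ∀ w, κ true * (g false * w) = (q⁻¹) ^ 2 • (g false * (κ true * w)) := fun w => by
    rw [← mul_assoc, d1, smul_mul_assoc, mul_assoc]
  have d2' : ∀ w, κ false * (g true * w) = (q⁻¹) ^ 2 • (g true * (κ false * w)) := fun w => by
    rw [← mul_assoc, d2, smul_mul_assoc, mul_assoc]
  have e1 : ∀ β, g β * s = s * g β := fun β => hs _
  have e2 : ∀ β, κ β * s = s * κ β := fun β => hs _
  have e1' : ∀ β w, g β * (s * w) = s * (g β * w) := fun β w => by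
    rw [← mul_assoc, e1, mul_assoc]
  have e2' : ∀ β w, κ β * (s * w) = s * (κ β * w) := fun β w => by
    rw [← mul_assoc, e2, mul_assoc]
  have n1 : (true = false) = False := by simp
  have n2 : (false = true) = False := by simp
  refine ⟨?_, ?_, ?_, ?_⟩
  · intro β
    ext c d
    cases β <;> cases c <;> cases d <;>
      simp [Matrix.mul_apply, Fintype.sum_bool, twk, i1, i2, smul_smul, hq0]
  · intro β
    ext c d
    cases β <;> cases c <;> cases d <;>
      simp only [Matrix.mul_apply, Fintype.sum_bool, twk, twg, Matrix.smul_apply, if_true, if_false,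
        ite_true, ite_false, mul_zero, zero_mul, add_zero, zero_add, Bool.not_true, Bool.not_false,
        n1, n2, smul_zero]
    all_goals simp only [smul_mul_assoc, mul_smul_comm, smul_smul, mul_assoc, s1, s2, d1, d2, e1, e2,
      s1', s2', d1', d2', e1', e2']
    all_goals match_scalars
    all_goals field_simp
  · intro β
    ext c d
    cases β <;> cases c <;> cases d <;>
      simp only [Matrix.mul_apply, Fintype.sum_bool, twk, twg, Matrix.smul_apply, if_true, if_false,
        ite_true, ite_false, mul_zero, zero_mul, add_zero, zero_add, Bool.not_true, Bool.not_false,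
        n1, n2, smul_zero]
    all_goals simp only [smul_mul_assoc, mul_smul_comm, smul_smul, mul_assoc, s1, s2, d1, d2, e1, e2,
      s1', s2', d1', d2', e1', e2', i1, i2]
    all_goals try match_scalars
    all_goals try field_simp
  · intro β
    have hS := h.serre β
    unfold serre
    unfold serre at hS
    ext c d
    cases β <;> cases c <;> cases d <;>
      simp only [Matrix.mul_apply, Fintype.sum_bool, twk, twg, Matrix.smul_apply, if_true, if_false,
        ite_true, ite_false, mul_zero, zero_mul, add_zero, zero_add, Bool.not_true, Bool.not_false,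
        n1, n2, smul_zero, pow_succ, pow_zero, one_mul, Matrix.sub_apply, Matrix.add_apply,
        Matrix.zero_apply] at hS ⊢
    all_goals simp only [mul_add, add_mul, smul_add, smul_mul_assoc, mul_smul_comm, smul_smul,
      mul_assoc, s1, s2, d1, d2, e1, e2,
      s1', s2', d1', d2', e1', e2', i1, i2, i1', i2', mul_one, one_mul] at hS ⊢
    all_goals first
      | (match_scalars <;> simp only [three] <;> field_simp <;> ring1)
      | (refine Eq.trans ?_ hS; match_scalars <;> simp only [three] <;> field_simp <;> ring1)

theorem IsSys.map {R' : Type*} [Ring R'] [Algebra K R'] (f : R →ₐ[K] R') {g κ : Bool → R}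
    (h : IsSys q g κ) : IsSys q (fun β => f (g β)) (fun β => f (κ β)) := by
  refine ⟨?_, ?_, ?_, ?_⟩
  · intro β
    rw [← map_mul, h.inv, map_one]
  · intro β
    rw [← map_mul, h.same, map_smul, map_mul]
  · intro β
    rw [← map_mul, h.diff, map_smul, map_mul]
  · intro β
    rw [← map_serre, h.serre, map_zero]

theorem rho_comp {R' : Type*} [Ring R'] [Algebra K R'] (f : R →ₐ[K] R') (g : Bool → R)
    (g' : Bool → R')
    (h : ∀ β, serre q (g β) (g (!β)) = 0) (h' : ∀ β, serre q (g' β) (g' (!β)) = 0)
    (e : ∀ β, f (g β) = g' β) (u : UPos K q) : f (rho g h u) = rho g' h' u := by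
  have : f.comp (rho g h) = rho g' h' := by
    apply hom_ext
    intro β
    simp [e]
  rw [← this]
  rfl

theorem twg_map {R' : Type*} [Ring R'] [Algebra K R'] (f : R →ₐ[K] R') (s : R)
    (g κ : Bool → R) (β : Bool) :
    f.mapMatrix (twg s g κ β) = twg (f s) (fun β => f (g β)) (fun β => f (κ β)) β := by
  ext c d
  simp only [AlgHom.mapMatrix_apply, Matrix.map_apply, twg]
  split_ifs <;> simp

theorem twg_mul_apply (s : R) (g κ : Bool → R) (β : Bool) (T : Matrix Bool Bool R) (c d : Bool) :
    (twg s g κ β * T) c d = g β * T c d + (if c = β then s * κ β * T (!β) d else 0) := by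
  cases β <;> cases c <;> simp [Matrix.mul_apply, twg, add_comm]

theorem mul_twg_apply (s : R) (g κ : Bool → R) (β : Bool) (T : Matrix Bool Bool R) (c d : Bool) :
    (T * twg s g κ β) c d = T c d * g β + (if d = !β then T c β * (s * κ β) else 0) := by
  cases β <;> cases d <;> simp [Matrix.mul_apply, twg, add_comm]

/-- constants -/
noncomputable def Cal (K : Type*) [Field K] (R : Type*) [Ring R] [Algebra K R] :
    R →ₐ[K] Polynomial R :=
  { (Polynomial.C : R →+* Polynomial R) with commutes' := fun _ => rfl }

theorem Cal_apply (r : R) : Cal K R r = Polynomial.C r := rfl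

/-- evaluation at a central element -/
noncomputable def ev {R' : Type*} [Ring R'] [Algebra K R'] (f : R →ₐ[K] R') (τ : R')
    (h : ∀ r, r * τ = τ * r) : Polynomial R →ₐ[K] R' :=
  { Polynomial.eval₂RingHom' (f : R →+* R') τ (fun a => h (f a)) with
    commutes' := fun r => by
      show Polynomial.eval₂ (f : R →+* R') τ (Polynomial.C (algebraMap K R r)) = _
      rw [Polynomial.eval₂_C]
      exact f.commutes r }

theorem ev_apply {R' : Type*} [Ring R'] [Algebra K R'] (f : R →ₐ[K] R') (τ : R')
    (h : ∀ r, r * τ = τ * r) (p : Polynomial R) :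
    ev f τ h p = Polynomial.eval₂ (f : R →+* R') τ p := rfl

theorem ev_C {R' : Type*} [Ring R'] [Algebra K R'] (f : R →ₐ[K] R') (τ : R')
    (h : ∀ r, r * τ = τ * r) (r : R) :
    ev f τ h (Polynomial.C r) = f r := by
  rw [ev_apply, Polynomial.eval₂_C]; rfl

theorem ev_X {R' : Type*} [Ring R'] [Algebra K R'] (f : R →ₐ[K] R') (τ : R')
    (h : ∀ r, r * τ = τ * r) :
    ev f τ h (Polynomial.X : Polynomial R) = τ := by
  rw [ev_apply, Polynomial.eval₂_X]

end tw

end Pool.Agent.K9h82.QS
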